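import Pool.Agent.W620.BM.Def

/-!
# `X` is smooth and geometrically integral
-/

open scoped TensorProduct
open MvPolynomial

namespace Pool.Agent.W620.BM

lemma disc_ne_zero : disc ≠ 0 := by
  intro h
  have h1 := congrArg (MvPolynomial.aeval (![1, 1, 1, 0, 0, 0] : Fin 6 → ℚ)) h
  simp [disc] at h1

/-- `X` is smooth over `ℚ` -/
theorem coordRing_smooth : Algebra.Smooth ℚ CoordRing := by
  have h1 : Algebra.Smooth ℚ (MvPolynomial (Fin 6) ℚ) := ⟨inferInstance, inferInstance⟩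
  have h2 : Algebra.Smooth (MvPolynomial (Fin 6) ℚ) CoordRing :=
    Algebra.Smooth.of_isLocalization_Away disc
  exact Algebra.Smooth.comp ℚ (MvPolynomial (Fin 6) ℚ) CoordRing

/-- `X` is geometrically integral -/
theorem coordRing_geom_integral (K : Type) [Field K] [Algebra ℚ K] :
    IsDomain (CoordRing ⊗[ℚ] K) := by
  let A := MvPolynomial (Fin 6) ℚ
  let f : A ⊗[ℚ] K →ₐ[ℚ] CoordRing ⊗[ℚ] K :=
    Algebra.TensorProduct.map (IsScalarTower.toAlgHom ℚ A CoordRing) (AlgHom.id ℚ K)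
  let _ : Algebra (A ⊗[ℚ] K) (CoordRing ⊗[ℚ] K) := f.toRingHom.toAlgebra
  have hf : ∀ a : A, f (a ⊗ₜ 1) = (algebraMap A CoordRing a) ⊗ₜ 1 := by
    intro a
    rw [Algebra.TensorProduct.map_tmul, map_one]
    rfl
  have h0 : IsScalarTower A (A ⊗[ℚ] K) (CoordRing ⊗[ℚ] K) :=
    IsScalarTower.of_algebraMap_eq (R := A) (S := A ⊗[ℚ] K) (A := CoordRing ⊗[ℚ] K)
      (fun a => (hf a).symm)
  have h1 : IsLocalization (Algebra.algebraMapSubmonoid (A ⊗[ℚ] K) (Submonoid.powers disc))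
      (CoordRing ⊗[ℚ] K) := by
    refine IsLocalization.tensorProduct_tensorProduct ℚ K (Submonoid.powers disc) CoordRing ?_
    ext c
    change f (1 ⊗ₜ c) = 1 ⊗ₜ c
    rw [Algebra.TensorProduct.map_tmul, map_one]
    rfl
  let e : A ⊗[ℚ] K ≃ₐ[ℚ] MvPolynomial (Fin 6) K :=
    (Algebra.TensorProduct.comm ℚ A K).trans ((algebraTensorAlgEquiv ℚ K).restrictScalars ℚ)
  have h2 : IsDomain (A ⊗[ℚ] K) := e.toMulEquiv.isDomain _
  refine IsLocalization.isDomain_of_le_nonZeroDivisors (R := A ⊗[ℚ] K) (CoordRing ⊗[ℚ] K)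
    (M := Algebra.algebraMapSubmonoid (A ⊗[ℚ] K) (Submonoid.powers disc)) ?_
  rintro _ ⟨_, ⟨n, rfl⟩, rfl⟩
  rw [mem_nonZeroDivisors_iff_ne_zero]
  intro h
  have h3 := congrArg e h
  rw [map_zero] at h3
  have h4 : e (algebraMap A (A ⊗[ℚ] K) (disc ^ n)) = MvPolynomial.map (algebraMap ℚ K) (disc ^ n) := by
    change algebraTensorAlgEquiv ℚ K ((1 : K) ⊗ₜ (disc ^ n)) = _
    rw [algebraTensorAlgEquiv_tmul, one_smul]
  have h5 : MvPolynomial.map (algebraMap ℚ K) (disc ^ n) = 0 := h4.symm.trans h3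
  have h6 : disc ^ n = 0 :=
    MvPolynomial.map_injective _ (algebraMap ℚ K).injective (h5.trans (map_zero _).symm)
  exact pow_ne_zero n disc_ne_zero h6

end Pool.Agent.W620.BM
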