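import Pool.Agent.W620.BM.Def3

/-!
# The group `G` is an extension of `μ₂²` by `SO₂⁴`, and `Y → X` is a torsor under `G`
-/

open scoped TensorProduct
open MvPolynomial QuadraticAlgebra

namespace Pool.Agent.W620.BM

section ext

variable {A : Type*} [CommRing A]

lemma so_ext {M N : SO2 A} (h₁ : M.1 0 0 = N.1 0 0) (h₂ : M.1 0 1 = N.1 0 1) : M = N := by
  apply Subtype.ext
  ext i j
  have hM := so_spec M
  have hN := so_spec N
  fin_cases i <;> fin_cases j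
  · exact h₁
  · exact h₂
  · change M.1 1 0 = N.1 1 0
    have h3 : M.1 1 0 = -M.1 0 1 := by rw [hM.2.1, neg_neg]
    have h4 : N.1 1 0 = -N.1 0 1 := by rw [hN.2.1, neg_neg]
    rw [h3, h4, h₂]
  · change M.1 1 1 = N.1 1 1
    rw [← hM.1, ← hN.1, h₁]

theorem fromSO_injective [Algebra ℚ A] : Function.Injective (fromSO A) := by
  intro M N h
  have h1 : un (algebraMap ℚ A (1 / 4)) (fun i => (M i).1 0 0) =
      un (algebraMap ℚ A (1 / 4)) (fun i => (N i).1 0 0) :=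
    congrArg (fun γ : GPoint A => γ.g.re) h
  have h2 : un (algebraMap ℚ A (1 / 4)) (fun i => (M i).1 0 1) =
      un (algebraMap ℚ A (1 / 4)) (fun i => (N i).1 0 1) :=
    congrArg (fun γ : GPoint A => γ.g.im) h
  funext i
  apply so_ext
  · have h3 := congrArg (evalL (sgn₁ i) (sgn₂ i)) h1
    rw [evalL_un quarter, evalL_un quarter] at h3
    exact h3
  · have h3 := congrArg (evalL (sgn₁ i) (sgn₂ i)) h2
    rw [evalL_un quarter, evalL_un quarter] at h3
    exact h3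

theorem exact_G [Algebra ℚ A] : Function.MulExact (fromSO A) (toMu2 A) := by
  intro γ
  constructor
  · intro h
    have h1 : γ.e₁ = 1 := congrArg (fun t : Mu2 A × Mu2 A => ((t.1.1 : Aˣ) : A)) h
    have h2 : γ.e₂ = 1 := congrArg (fun t : Mu2 A × Mu2 A => ((t.2.1 : Aˣ) : A)) h
    have hv : ∀ i : Fin 4, evalL (sgn₁ i) (sgn₂ i) γ.g.re ^ 2 +
        evalL (sgn₁ i) (sgn₂ i) γ.g.im ^ 2 = 1 := by
      intro i
      rw [← evalL_nrm (sgn₁_sq i) (sgn₂_sq i), γ.hg, evalL_one]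
    refine ⟨fun i => ⟨!![evalL (sgn₁ i) (sgn₂ i) γ.g.re, evalL (sgn₁ i) (sgn₂ i) γ.g.im;
      -evalL (sgn₁ i) (sgn₂ i) γ.g.im, evalL (sgn₁ i) (sgn₂ i) γ.g.re], ?_⟩, ?_⟩
    · rw [Matrix.of_mem_specialOrthogonalGroup_fin_two_iff]
      exact ⟨rfl, (neg_neg _).symm, hv i⟩
    · refine GPoint.ext h1.symm h2.symm ?_
      apply QuadraticAlgebra.ext
      · exact un_evalL quarter γ.g.re
      · exact un_evalL quarter γ.g.im
  · rintro ⟨M, rfl⟩
    exact Prod.ext (Subtype.ext (Units.ext rfl)) (Subtype.ext (Units.ext rfl))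

theorem toMu2_surjective : Function.Surjective (toMu2 A) := by
  rintro ⟨x, y⟩
  have hx : ((x.1 : Aˣ) : A) ^ 2 = 1 := by
    have := (mem_rootsOfUnity 2 _).1 x.2
    rw [← Units.val_pow_eq_pow_val, this, Units.val_one]
  have hy : ((y.1 : Aˣ) : A) ^ 2 = 1 := by
    have := (mem_rootsOfUnity 2 _).1 y.2
    rw [← Units.val_pow_eq_pow_val, this, Units.val_one]
  refine ⟨⟨x.1, y.1, 1, hx, hy, nrm_one⟩, ?_⟩
  apply Prod.ext
  · apply Subtype.ext
    apply Units.ext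
    rfl
  · apply Subtype.ext
    apply Units.ext
    rfl

end ext

section torsor

variable {A : Type*} [CommRing A]

lemma act_one (y : YPoint A) : y.act 1 = y := by
  apply YPoint.ext
  · exact mul_one _
  · exact mul_one _
  · change scaleM 1 1 y.u * 1 = y.u
    rw [one_scaleM, mul_one]

lemma act_mul (y : YPoint A) (γ γ' : GPoint A) : y.act (γ * γ') = (y.act γ).act γ' := by
  apply YPoint.ext
  · change y.c₁ * (γ.e₁ * γ'.e₁) = y.c₁ * γ.e₁ * γ'.e₁
    rw [mul_assoc]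
  · change y.c₂ * (γ.e₂ * γ'.e₂) = y.c₂ * γ.e₂ * γ'.e₂
    rw [mul_assoc]
  · change scaleM (γ.e₁ * γ'.e₁) (γ.e₂ * γ'.e₂) y.u * (scaleM γ'.e₁ γ'.e₂ γ.g * γ'.g) =
      scaleM γ'.e₁ γ'.e₂ (scaleM γ.e₁ γ.e₂ y.u * γ.g) * γ'.g
    rw [scaleM_mul γ'.he₁ γ'.he₂, scaleM_scaleM, mul_assoc, mul_comm γ.e₁, mul_comm γ.e₂]

lemma act_over {y : YPoint A} {P : XPoint A} (h : Over y P) (γ : GPoint A) :
    Over (y.act γ) P := by
  refine ⟨?_, ?_, ?_⟩
  · change (y.c₁ * γ.e₁) ^ 2 = _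
    rw [mul_pow, γ.he₁, mul_one, h.1]
  · change (y.c₂ * γ.e₂) ^ 2 = _
    rw [mul_pow, γ.he₂, mul_one, h.2.1]
  · change scale (y.c₁ * γ.e₁) (y.c₂ * γ.e₂) _ = nrm (scaleM γ.e₁ γ.e₂ y.u * γ.g)
    rw [nrm_mul, γ.hg, mul_one, nrm_scaleM γ.he₁ γ.he₂, ← h.2.2, scale_scale, mul_comm γ.e₁,
      mul_comm γ.e₂]

/-- elements with invertible norm are units -/
lemma exists_inv {u : MM A} (hu : IsUnit (nrm u)) : ∃ v : MM A, u * v = 1 := by
  obtain ⟨n, hn⟩ := hu.exists_right_inv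
  refine ⟨cj u * algebraMap (LL A) (MM A) n, ?_⟩
  rw [← mul_assoc, mul_cj, ← map_mul, hn, map_one]

/-- simply transitive action on the fibres -/
theorem act_transitive {y y' : YPoint A} {P : XPoint A} (h : Over y P) (h' : Over y' P) :
    ∃! γ : GPoint A, y' = y.act γ := by
  obtain ⟨v₁, hv₁⟩ := y.hc₁.exists_right_inv
  obtain ⟨v₂, hv₂⟩ := y.hc₂.exists_right_inv
  have he₁ : (y'.c₁ * v₁) ^ 2 = 1 := by
    rw [mul_pow, h'.1, ← h.1, ← mul_pow, hv₁, one_pow]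
  have he₂ : (y'.c₂ * v₂) ^ 2 = 1 := by
    rw [mul_pow, h'.2.1, ← h.2.1, ← mul_pow, hv₂, one_pow]
  set e₁ := y'.c₁ * v₁ with he₁'
  set e₂ := y'.c₂ * v₂ with he₂'
  have hc₁ : y.c₁ * e₁ = y'.c₁ := by
    rw [he₁']
    linear_combination y'.c₁ * hv₁
  have hc₂ : y.c₂ * e₂ = y'.c₂ := by
    rw [he₂']
    linear_combination y'.c₂ * hv₂
  -- the norm of `ψ(u)`
  have hn : nrm (scaleM e₁ e₂ y.u) = nrm y'.u := by
    rw [nrm_scaleM he₁ he₂, ← h.2.2, scale_scale, ← h'.2.2, mul_comm e₁, mul_comm e₂, hc₁, hc₂]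
  have hu : IsUnit (nrm (scaleM e₁ e₂ y.u)) := by
    rw [hn]
    exact y'.hu
  obtain ⟨v, hv⟩ := exists_inv hu
  have hnv : nrm (v * y'.u) = 1 := by
    rw [nrm_mul, ← hn, ← nrm_mul, mul_comm, hv, nrm_one]
  refine ⟨⟨e₁, e₂, v * y'.u, he₁, he₂, hnv⟩, ?_, ?_⟩
  · apply YPoint.ext
    · exact hc₁.symm
    · exact hc₂.symm
    · change y'.u = scaleM e₁ e₂ y.u * (v * y'.u)
      rw [← mul_assoc, hv, one_mul]
  · intro γ hγ
    have g₁ : y'.c₁ = y.c₁ * γ.e₁ := congrArg YPoint.c₁ hγ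
    have g₂ : y'.c₂ = y.c₂ * γ.e₂ := congrArg YPoint.c₂ hγ
    have g₃ : y'.u = scaleM γ.e₁ γ.e₂ y.u * γ.g := congrArg YPoint.u hγ
    have k₁ : γ.e₁ = e₁ := by
      rw [he₁', g₁]
      linear_combination (-γ.e₁) * hv₁
    have k₂ : γ.e₂ = e₂ := by
      rw [he₂', g₂]
      linear_combination (-γ.e₂) * hv₂
    apply GPoint.ext
    · exact k₁
    · exact k₂
    · change γ.g = v * y'.u
      rw [g₃, k₁, k₂, ← mul_assoc, mul_comm v, hv, one_mul]

lemma quad_root (A : Type) [CommRing A] (a : A) :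
    (⟨0, 1⟩ : QuadraticAlgebra A a 0) ^ 2 = algebraMap A (QuadraticAlgebra A a 0) a := by
  rw [sq]
  apply QuadraticAlgebra.ext <;> simp

lemma quad_ff (A : Type) [CommRing A] (a : A) :
    Module.FaithfullyFlat A (QuadraticAlgebra A a 0) := by
  rcases subsingleton_or_nontrivial A with h | h
  · exact { submodule_ne_top := fun m hm => absurd (Subsingleton.elim m ⊤) hm.ne_top }
  · infer_instance

/-- square roots exist after a finite faithfully flat extension -/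
lemma sqrt_ext (n : ℕ) : ∀ (A : Type) [CommRing A] (a : Fin n → A),
    ∃ (A' : Type) (_ : CommRing A') (_ : Algebra A A'), Module.FaithfullyFlat A A' ∧
      Module.Finite A A' ∧ ∀ i, ∃ r : A', r ^ 2 = algebraMap A A' (a i) := by
  induction n with
  | zero =>
    intro A _ a
    exact ⟨A, inferInstance, inferInstance, inferInstance, inferInstance, fun i => i.elim0⟩
  | succ n ih =>
    intro A _ a
    let B : Type := QuadraticAlgebra A (a 0) 0
    obtain ⟨A', _, _, h1, h2, h3⟩ := ih B (fun i => algebraMap A B (a i.succ))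
    let _ : Algebra A A' := ((algebraMap B A').comp (algebraMap A B)).toAlgebra
    have : IsScalarTower A B A' := IsScalarTower.of_algebraMap_eq' rfl
    have : Module.FaithfullyFlat A B := quad_ff A (a 0)
    have : Module.Finite A B := inferInstance
    refine ⟨A', inferInstance, inferInstance, Module.FaithfullyFlat.trans A B A',
      Module.Finite.trans B A', ?_⟩
    intro i
    refine Fin.cases ?_ (fun j => ?_) i
    · refine ⟨algebraMap B A' ⟨0, 1⟩, ?_⟩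
      rw [← map_pow, IsScalarTower.algebraMap_apply A B A']
      congr 1
      exact quad_root A (a 0)
    · obtain ⟨r, hr⟩ := h3 j
      exact ⟨r, hr⟩

lemma GPoint.map_mul {B : Type*} [CommRing B] (f : A →+* B) (γ γ' : GPoint A) :
    (γ * γ').map f = γ.map f * γ'.map f := by
  apply GPoint.ext
  · exact _root_.map_mul f _ _
  · exact _root_.map_mul f _ _
  · change mapM f (scaleM γ'.e₁ γ'.e₂ γ.g * γ'.g) =
      scaleM (f γ'.e₁) (f γ'.e₂) (mapM f γ.g) * mapM f γ'.g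
    rw [mapM_mul, mapM_scaleM]

lemma YPoint.map_act {B : Type*} [CommRing B] (f : A →+* B) (y : YPoint A) (γ : GPoint A) :
    (y.act γ).map f = (y.map f).act (γ.map f) := by
  apply YPoint.ext
  · exact _root_.map_mul f _ _
  · exact _root_.map_mul f _ _
  · change mapM f (scaleM γ.e₁ γ.e₂ y.u * γ.g) =
      scaleM (f γ.e₁) (f γ.e₂) (mapM f y.u) * mapM f γ.g
    rw [mapM_mul, mapM_scaleM]

lemma over_map {B : Type*} [CommRing B] (f : A →+* B) {y : YPoint A} {P : XPoint A}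
    (h : Over y P) : Over (y.map f) (f.comp P) := by
  refine ⟨?_, ?_, ?_⟩
  · change (f y.c₁) ^ 2 = f (coord P 0)
    rw [← map_pow, h.1]
  · change (f y.c₂) ^ 2 = f (coord P 1)
    rw [← map_pow, h.2.1]
  · change _ = nrm (mapM f y.u)
    rw [nrm_mapM, ← h.2.2, mapL_scale]
    rfl

/-- elements all of whose values are units are units -/
lemma isUnit_of_eval {A : Type} [CommRing A] {q : A} (hq : 4 * q = 1) {t : LL A}
    (h : ∀ i : Fin 4, IsUnit (evalL (sgn₁ i) (sgn₂ i) t)) : IsUnit t := by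
  choose g hg using fun i => (h i).exists_right_inv
  refine IsUnit.of_mul_eq_one (un q g) (evalL_ext hq fun i => ?_)
  rw [evalL_mul (sgn₁_sq i) (sgn₂_sq i), evalL_un hq, hg, evalL_one]

/-- the value of the discriminant at a point is a unit -/
lemma disc_unit {A : Type} [CommRing A] (P : XPoint A) : IsUnit (coord P 0 * coord P 1 *
    ((coord P 2 ^ 2 + coord P 0 * coord P 3 ^ 2 - coord P 1 * coord P 4 ^ 2 -
      coord P 0 * coord P 1 * coord P 5 ^ 2) ^ 2 -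
    coord P 0 * (2 * coord P 2 * coord P 3 - 2 * coord P 1 * coord P 4 * coord P 5) ^ 2)) := by
  have h1 : IsUnit (algebraMap (MvPolynomial (Fin 6) ℚ) CoordRing disc) :=
    IsLocalization.Away.algebraMap_isUnit disc
  have h2 := h1.map P
  have key : ∀ φ : MvPolynomial (Fin 6) ℚ →+* A, φ disc = φ (X 0) * φ (X 1) *
    ((φ (X 2) ^ 2 + φ (X 0) * φ (X 3) ^ 2 - φ (X 1) * φ (X 4) ^ 2 -
      φ (X 0) * φ (X 1) * φ (X 5) ^ 2) ^ 2 -
    φ (X 0) * (2 * φ (X 2) * φ (X 3) - 2 * φ (X 1) * φ (X 4) * φ (X 5)) ^ 2) := by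
    intro φ
    unfold disc
    simp only [map_mul, map_sub, map_add, map_pow, map_ofNat]
  have h3 := key (P.comp (algebraMap (MvPolynomial (Fin 6) ℚ) CoordRing))
  rw [RingHom.comp_apply] at h3
  rw [h3] at h2
  exact h2

/-- `Y → X` is surjective locally for the topology of finite flat covers -/
theorem local_surjective (A : Type) [CommRing A] [Algebra ℚ A] (P : XPoint A) :
    ∃ (A' : Type) (_ : CommRing A') (_ : Algebra A A'), Module.FaithfullyFlat A A' ∧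
      Module.Finite A A' ∧ ∃ y : YPoint A', Over y ((algebraMap A A').comp P) := by
  obtain ⟨A₁, _, _, f1, g1, h1⟩ := sqrt_ext 2 A ![coord P 0, coord P 1]
  obtain ⟨c₁, hc₁⟩ := h1 0
  obtain ⟨c₂, hc₂⟩ := h1 1
  set P₁ : XPoint A₁ := (algebraMap A A₁).comp P with hP₁
  have hc₁' : c₁ ^ 2 = coord P₁ 0 := hc₁
  have hc₂' : c₂ ^ 2 = coord P₁ 1 := hc₂
  set τ : LL A₁ := scale c₁ c₂ ⟨⟨coord P₁ 2, coord P₁ 3⟩, ⟨coord P₁ 4, coord P₁ 5⟩⟩ with hτ
  obtain ⟨A₂, _, _, f2, g2, h2⟩ := sqrt_ext 4 A₁ (fun i => evalL (sgn₁ i) (sgn₂ i) τ)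
  choose r hr using h2
  let _ : Algebra A A₂ := ((algebraMap A₁ A₂).comp (algebraMap A A₁)).toAlgebra
  have : IsScalarTower A A₁ A₂ := IsScalarTower.of_algebraMap_eq' rfl
  refine ⟨A₂, inferInstance, inferInstance, Module.FaithfullyFlat.trans A A₁ A₂,
    Module.Finite.trans A₁ A₂, ?_⟩
  have hP₂ : (algebraMap A A₂).comp P = (algebraMap A₁ A₂).comp P₁ := rfl
  obtain ⟨q₀, hq₀⟩ := exists_quarter (A := A)
  set q₁ : A₁ := algebraMap A A₁ q₀ with hq₁'
  have hq₁ : 4 * q₁ = 1 := by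
    have := congrArg (algebraMap A A₁) hq₀
    rw [map_mul, map_ofNat, map_one] at this
    exact this
  set q₂ : A₂ := algebraMap A₁ A₂ q₁ with hq₂'
  have hq₂ : 4 * q₂ = 1 := by
    have := congrArg (algebraMap A₁ A₂) hq₁
    rw [map_mul, map_ofNat, map_one] at this
    exact this
  -- the element of norm `τ`
  set z : LL A₂ := un q₂ r with hz
  have hz2 : z ^ 2 = mapL (algebraMap A₁ A₂) τ := by
    refine evalL_ext hq₂ fun i => ?_
    rw [evalL_sq (sgn₁_sq i) (sgn₂_sq i), hz, evalL_un hq₂, hr]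
    have e1 : (sgn₁ i : A₂) = algebraMap A₁ A₂ (sgn₁ i) := by
      fin_cases i <;> simp [sgn₁]
    have e2 : (sgn₂ i : A₂) = algebraMap A₁ A₂ (sgn₂ i) := by
      fin_cases i <;> simp [sgn₂]
    simp only [evalL, mapL, map_add, map_mul, e1, e2]
  have hnrm : nrm (⟨z, 0⟩ : MM A₂) = mapL (algebraMap A₁ A₂) τ := by
    rw [nrm, hz2]
    simp
  -- units
  have hd := disc_unit P₁
  have hprod : evalL (sgn₁ 0) (sgn₂ 0) τ * evalL (sgn₁ 1) (sgn₂ 1) τ *
      (evalL (sgn₁ 2) (sgn₂ 2) τ * evalL (sgn₁ 3) (sgn₂ 3) τ) =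
    (coord P₁ 2 ^ 2 + coord P₁ 0 * coord P₁ 3 ^ 2 - coord P₁ 1 * coord P₁ 4 ^ 2 -
      coord P₁ 0 * coord P₁ 1 * coord P₁ 5 ^ 2) ^ 2 -
    coord P₁ 0 * (2 * coord P₁ 2 * coord P₁ 3 - 2 * coord P₁ 1 * coord P₁ 4 * coord P₁ 5) ^ 2 := by
    rw [hτ, ← hc₁', ← hc₂']
    simp only [evalL, scale, sgn₁, sgn₂, Matrix.cons_val]
    ring
  have hu1 := isUnit_of_mul_isUnit_right hd
  rw [← hprod] at hu1
  have hu2 := isUnit_of_mul_isUnit_left hd
  rw [← hc₁', ← hc₂'] at hu2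
  have hcu₁ : IsUnit c₁ := (isUnit_pow_iff two_ne_zero).1 (isUnit_of_mul_isUnit_left hu2)
  have hcu₂ : IsUnit c₂ := (isUnit_pow_iff two_ne_zero).1 (isUnit_of_mul_isUnit_right hu2)
  have hall : ∀ i : Fin 4, IsUnit (evalL (sgn₁ i) (sgn₂ i) τ) := by
    intro i
    fin_cases i
    · exact isUnit_of_mul_isUnit_left (isUnit_of_mul_isUnit_left hu1)
    · exact isUnit_of_mul_isUnit_right (isUnit_of_mul_isUnit_left hu1)
    · exact isUnit_of_mul_isUnit_left (isUnit_of_mul_isUnit_right hu1)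
    · exact isUnit_of_mul_isUnit_right (isUnit_of_mul_isUnit_right hu1)
  have hτu : IsUnit τ := isUnit_of_eval hq₁ hall
  refine ⟨⟨algebraMap A₁ A₂ c₁, algebraMap A₁ A₂ c₂, ⟨z, 0⟩, hcu₁.map _, hcu₂.map _, ?_⟩, ?_, ?_, ?_⟩
  · rw [hnrm]
    exact isUnit_mapL _ hτu
  · rw [hP₂]
    change (algebraMap A₁ A₂ c₁) ^ 2 = algebraMap A₁ A₂ (coord P₁ 0)
    rw [← map_pow, hc₁']
  · rw [hP₂]
    change (algebraMap A₁ A₂ c₂) ^ 2 = algebraMap A₁ A₂ (coord P₁ 1)
    rw [← map_pow, hc₂']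
  · rw [hP₂]
    refine Eq.trans ?_ hnrm.symm
    exact (mapL_scale (algebraMap A₁ A₂) c₁ c₂
      ⟨⟨coord P₁ 2, coord P₁ 3⟩, ⟨coord P₁ 4, coord P₁ 5⟩⟩).symm

end torsor

end Pool.Agent.W620.BM
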