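import Pool.Agent.W620.BM.Scal
import Pool.Agent.W359.BM.RetSep
import Pool.Agent.W52.BM.Csa
import Pool.Agent.W52.BM.Uni
import Pool.Agent.W359.BM.Fib
import Pool.Agent.W359.BM.H90
import Pool.Agent.W22.BM.Box
import Pool.Agent.W22.BM.Idem
import Pool.Agent.W253.BM.Loc
import Pool.Agent.W249.BM.Triv
import Pool.Agent.W52.BM.Lift
import Pool.Agent.W22.BM.Sq
import Pool.Agent.W249.BM.Comb

namespace Pool.Agent.W620.BM

theorem a_csa : S_csa := Pool.Agent.W52.BM.s_csa Pool.Agent.W359.BM.ret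
theorem a_rep : S_rep := Pool.Agent.W52.BM.s_rep Pool.Agent.W359.BM.ret
theorem a_deg : S_deg := Pool.Agent.W52.BM.s_deg a_csa
theorem a_uni : S_uni := Pool.Agent.W52.BM.s_uni a_csa
theorem a_fib : S_fib := Pool.Agent.W359.BM.fib a_csa
theorem a_h90 : S_h90 := Pool.Agent.W359.BM.h90
theorem a_loc : S_loc := Pool.Agent.W253.BM.loc a_csa a_rep Pool.Agent.W22.BM.idem
theorem a_triv : S_triv := Pool.Agent.W249.BM.triv a_loc a_deg a_uni Pool.Agent.W22.BM.box a_rep
theorem a_lift : S_lift := Pool.Agent.W52.BM.s_lift Pool.Agent.W359.BM.sep a_uni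
  Pool.Agent.W22.BM.box
theorem a_twosq : S_twosq := Pool.Agent.W22.BM.twosq
theorem a_gsq : S_gsq := Pool.Agent.W22.BM.gsq
theorem a_comb : S_comb := Pool.Agent.W249.BM.comb

end Pool.Agent.W620.BM

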