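import Pool.Agent.W620.BM.All

open scoped TensorProduct Topology
open Matrix

namespace Pool.Agent.W620.BM

variable {R B : Type} [CommRing R] [Ring B] [Algebra R B]

/-- the type is real of absolute value one -/
lemma type_pm {n : ℕ} (hn : 0 < n) {h : Mat n} {s : ℂ} (hdet : h.det = 1)
    (hs : h * bar h = algebraMap ℂ (Mat n) s) : s ^ 2 = 1 := by
  have h1 : s • (1 : Mat n) = h * bar h := by rw [hs, Algebra.algebraMap_eq_smul_one]
  have hinv : adjugate h * h = 1 := by rw [adjugate_mul, hdet, one_smul]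
  have hinv' : h * adjugate h = 1 := by rw [mul_adjugate, hdet, one_smul]
  have h2 : bar h = s • adjugate h := by
    calc bar h = (adjugate h * h) * bar h := by rw [hinv, one_mul]
      _ = adjugate h * (s • (1 : Mat n)) := by rw [mul_assoc, h1]
      _ = s • adjugate h := by rw [mul_smul_comm, mul_one]
  have h3 : bar h * h = s • (1 : Mat n) := by rw [h2, smul_mul_assoc, hinv]
  have h4 : bar h * h = (starRingEnd ℂ s) • (1 : Mat n) := by
    have h5 := congrArg bar h1
    rw [bar_smul, bar_one, bar_mul, bar_bar] at h5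
    exact h5.symm
  have hne : (1 : Mat n) ≠ 0 := by
    have : Nonempty (Fin n) := ⟨⟨0, hn⟩⟩
    exact one_ne_zero
  have h5 : s = starRingEnd ℂ s := by
    have h6 : (s - starRingEnd ℂ s) • (1 : Mat n) = 0 := by rw [sub_smul, ← h3, ← h4, sub_self]
    exact sub_eq_zero.1 ((smul_eq_zero.1 h6).resolve_right hne)
  have h6 : s ^ n = 1 := by
    have h7 := congrArg det h1
    rw [det_smul, det_mul, bar_det, hdet, map_one, mul_one, det_one, mul_one,
      Fintype.card_fin] at h7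
    exact h7
  obtain ⟨r, hr⟩ := Complex.conj_eq_iff_real.1 h5.symm
  have h7 : r ^ n = 1 := by
    rw [hr] at h6
    exact_mod_cast h6
  have h8 : |r| = 1 := by
    have h9 : |r| ^ n = 1 := by rw [← abs_pow, h7, abs_one]
    exact (pow_eq_one_iff_of_nonneg (abs_nonneg r) hn.ne').1 h9
  rw [hr]
  have h9 : r ^ 2 = 1 := by rw [← sq_abs, h8, one_pow]
  exact_mod_cast h9

lemma scal_val {n : ℕ} (hn : 0 < n) {c d : ℂ} (h : c • (1 : Mat n) = d • (1 : Mat n)) : c = d := by
  have hne : (1 : Mat n) ≠ 0 := by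
    have : Nonempty (Fin n) := ⟨⟨0, hn⟩⟩
    exact one_ne_zero
  have h6 : (c - d) • (1 : Mat n) = 0 := by rw [sub_smul, h, sub_self]
  exact sub_eq_zero.1 ((smul_eq_zero.1 h6).resolve_right hne)

/-- the type is unique -/
lemma HasType.unique [IsAzumaya R B] {x : R →+* ℂ} {s s' : ℂ} (h : HasType B x s)
    (h' : HasType B x s') : s = s' := by
  obtain ⟨n, hn, ρ, m, hρ, hm, hint, hs⟩ := h
  obtain ⟨n', hn', ρ', m', hρ', hm', hint', hs'⟩ := h'
  have hnn : n = n' := a_deg R B x n n' ρ ρ' hn hn' hρ hρ'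
  subst hnn
  obtain ⟨g, hg, hgint⟩ := a_uni R B x n ρ ρ' hn hρ hρ'
  have hgi : adjugate g * g = 1 := by rw [adjugate_mul, hg, one_smul]
  have hgi' : g * adjugate g = 1 := by rw [mul_adjugate, hg, one_smul]
  have hadj : (adjugate g).det = 1 := by
    have := congrArg det hgi
    rw [det_mul, hg, mul_one, det_one] at this
    exact this
  -- the two intertwiners from the conjugate of `ρ` to `ρ'`
  have e1 : ∀ b, ρ' b * (g * m) = (g * m) * conjRep ρ b := by
    intro b
    rw [← mul_assoc, hgint, mul_assoc, hint, mul_assoc]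
  have e2 : ∀ b, ρ' b * (m' * bar g) = (m' * bar g) * conjRep ρ b := by
    intro b
    have h1 := congrArg bar (hgint b)
    rw [bar_mul, bar_mul] at h1
    rw [← mul_assoc, hint', mul_assoc, mul_assoc, conjRep_apply, conjRep_apply, h1]
  have hdm : (m' * bar g).det = 1 := by rw [det_mul, hm', bar_det, hg, map_one, mul_one]
  have hci := (hρ.conj).inter (σ := fun b => ρ' b) (a := g * m) (c := m' * bar g) hdm e1 e2
  rcases hci with hci | hci
  swap
  · omega
  rw [smul_smul] at hci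
  set c : ℂ := (adjugate (m' * bar g) * (g * m)).trace * (n : ℂ)⁻¹ with hc
  have h1 : g * m = c • (m' * bar g) := by
    have h2 : (m' * bar g) * (adjugate (m' * bar g) * (g * m)) = g * m := by
      rw [← mul_assoc, mul_adjugate, hdm, one_smul, one_mul]
    rw [hci, mul_smul_comm, mul_one] at h2
    exact h2.symm
  have hcn : c ^ n = 1 := by
    have h2 := congrArg det h1
    rw [det_smul, hdm, det_mul, hg, hm, mul_one, mul_one, Fintype.card_fin] at h2
    exact h2.symm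
  have hc0 : c ≠ 0 := by
    intro h
    rw [h, zero_pow hn.ne'] at hcn
    exact zero_ne_one hcn
  have hcc : c * starRingEnd ℂ c = 1 := by
    have h2 : ‖c‖ ^ n = 1 := by rw [← norm_pow, hcn, norm_one]
    have h3 : ‖c‖ = 1 := (pow_eq_one_iff_of_nonneg (norm_nonneg c) hn.ne').1 h2
    rw [Complex.mul_conj, Complex.normSq_eq_norm_sq, h3]
    simp
  -- `m = c g⁻¹ m' bar g`
  have h2 : m = c • (adjugate g * m' * bar g) := by
    calc m = (adjugate g * g) * m := by rw [hgi, one_mul]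
      _ = adjugate g * (g * m) := by rw [mul_assoc]
      _ = c • (adjugate g * m' * bar g) := by rw [h1, mul_smul_comm, mul_assoc]
  have h3 : s • (1 : Mat n) = s' • (1 : Mat n) := by
    rw [← Algebra.algebraMap_eq_smul_one, ← Algebra.algebraMap_eq_smul_one, ← hs]
    have h4 : bar m = (starRingEnd ℂ c) • (bar (adjugate g) * bar m' * g) := by
      rw [h2, bar_smul, bar_mul, bar_mul, bar_bar]
    have h5 : bar g * bar (adjugate g) = 1 := by rw [← bar_mul, hgi', bar_one]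
    change m * bar m = _
    rw [h4, h2, smul_mul_assoc, mul_smul_comm, smul_smul, hcc, one_smul]
    calc adjugate g * m' * bar g * (bar (adjugate g) * bar m' * g)
        = adjugate g * m' * (bar g * bar (adjugate g)) * bar m' * g := by
          simp only [mul_assoc]
      _ = adjugate g * (m' * bar m') * g := by rw [h5, mul_one]; simp only [mul_assoc]
      _ = algebraMap ℂ (Mat n) s' := by
        rw [hs', Algebra.algebraMap_eq_smul_one, mul_smul_comm, mul_one, smul_mul_assoc, hgi]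
  exact scal_val hn h3

lemma HasType.sq {x : R →+* ℂ} {s : ℂ} (h : HasType B x s) : s ^ 2 = 1 := by
  obtain ⟨n, hn, ρ, m, hρ, hm, hint, hs⟩ := h
  exact type_pm hn hm hs

/-! ### families -/

section fam

variable {d n : ℕ} {x : (Fin d → ℝ) → R →+* ℂ} {ρ : (Fin d → ℝ) → B →+* Mat n}

lemma continuous_bar : Continuous (bar (n := n)) := by
  refine continuous_matrix fun i j => ?_
  have : Continuous fun m : Mat n => m i j := (continuous_apply j).comp (continuous_apply i)
  exact Complex.continuous_conj.comp this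

/-- the conjugate family -/
lemma IsFam.conj (hρ : IsFam x Set.univ ρ) (hconj : ∀ θ, (starRingEnd ℂ).comp (x θ) = x (-θ)) :
    IsFam x Set.univ (fun θ => conjRep (ρ (-θ))) := by
  constructor
  · intro θ _
    have h1 := (hρ.rep (-θ) (Set.mem_univ _)).conj
    rw [hconj, neg_neg] at h1
    exact h1
  · intro b
    have h1 : Continuous fun θ => ρ θ b := continuousOn_univ.1 (hρ.cont b)
    exact (continuous_bar.comp (h1.comp continuous_neg)).continuousOn

/-- the shifted family -/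
lemma IsFam.shift (hρ : IsFam x Set.univ ρ) {P : Fin d → ℝ} (hP : ∀ θ, x (θ + P) = x θ) :
    IsFam x Set.univ (fun θ => ρ (θ + P)) := by
  constructor
  · intro θ _
    have h1 := (hρ.rep (θ + P) (Set.mem_univ _))
    rw [hP] at h1
    exact h1
  · intro b
    have h1 : Continuous fun θ => ρ θ b := continuousOn_univ.1 (hρ.cont b)
    exact (h1.comp (continuous_add_const P)).continuousOn

/-- the shifted family over the shifted points -/
lemma IsFam.shift' (hρ : IsFam x Set.univ ρ) (P : Fin d → ℝ) :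
    IsFam (fun θ => x (θ + P)) Set.univ (fun θ => ρ (θ + P)) := by
  constructor
  · intro θ _
    exact hρ.rep (θ + P) (Set.mem_univ _)
  · intro b
    have h1 : Continuous fun θ => ρ θ b := continuousOn_univ.1 (hρ.cont b)
    exact (h1.comp (continuous_add_const P)).continuousOn

/-- the intertwiner between the family and its conjugate -/
lemma exists_h [IsAzumaya R B] (hn : 0 < n) (hρ : IsFam x Set.univ ρ)
    (hconj : ∀ θ, (starRingEnd ℂ).comp (x θ) = x (-θ)) :
    ∃ (h : (Fin d → ℝ) → Mat n) (ζ : ℂ), Continuous h ∧ (∀ θ, (h θ).det = 1) ∧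
      (∀ θ b, ρ θ b * h θ = h θ * bar (ρ (-θ) b)) ∧ ∀ θ, h θ * bar (h (-θ)) = ζ • 1 := by
  obtain ⟨h, hc, hd, hi⟩ := a_lift R B d x n hn _ ρ (hρ.conj hconj) hρ
  have hi' : ∀ θ b, ρ θ b * h θ = h θ * bar (ρ (-θ) b) := hi
  obtain ⟨ζ, _, hζ⟩ := scalar_const (B := B) hn hρ (fun θ b => ρ θ b) (fun θ => h θ * bar (h (-θ)))
    (fun _ => 1) (hc.mul (continuous_bar.comp (hc.comp continuous_neg))) continuous_const
    (fun θ => by rw [det_mul, bar_det, hd, hd, map_one, mul_one]) (fun θ => det_one)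
    (fun θ b => by
      have h1 := congrArg bar (hi' (-θ) b)
      rw [bar_mul, bar_mul, bar_bar, neg_neg] at h1
      rw [← mul_assoc, hi', mul_assoc, h1, mul_assoc])
    (fun θ b => by rw [mul_one, one_mul])
  exact ⟨h, ζ, hc, hd, hi', hζ⟩

/-- the relation between `g` and `h` -/
lemma exists_w (hn : 0 < n) (hρ : IsFam x Set.univ ρ)
    (hconj : ∀ θ, (starRingEnd ℂ).comp (x θ) = x (-θ))
    {h : (Fin d → ℝ) → Mat n} (hc : Continuous h) (hd : ∀ θ, (h θ).det = 1)
    (hi : ∀ θ b, ρ θ b * h θ = h θ * bar (ρ (-θ) b))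
    {P : Fin d → ℝ} (hP : ∀ θ, x (θ + P) = x θ)
    {g : (Fin d → ℝ) → Mat n} (hgc : Continuous g) (hgd : ∀ θ, (g θ).det = 1)
    (hgi : ∀ θ b, ρ (θ + P) b * g θ = g θ * ρ θ b) :
    ∃ w : ℂ, ∀ θ, g θ * h θ * bar (g (-θ - P)) = w • h (θ + P) := by
  have hfam : IsFam x Set.univ (fun θ => conjRep (ρ (-(θ + P)))) := (hρ.conj hconj).shift hP
  obtain ⟨w, _, hw⟩ := scalar_const (B := B) hn hfam (fun θ b => ρ (θ + P) b)
    (fun θ => g θ * h θ * bar (g (-θ - P))) (fun θ => h (θ + P))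
    ((hgc.mul hc).mul (continuous_bar.comp (hgc.comp (continuous_neg.sub continuous_const))))
    (hc.comp (continuous_add_const P))
    (fun θ => by rw [det_mul, det_mul, bar_det, hd, hgd, hgd, map_one, mul_one, mul_one])
    (fun θ => hd _)
    (fun θ b => by
      have h1 := congrArg bar (hgi (-θ - P) b)
      rw [bar_mul, bar_mul, sub_add_cancel] at h1
      have h2 : -(θ + P) = -θ - P := by abel
      rw [← mul_assoc, ← mul_assoc, hgi, mul_assoc (g θ), hi, conjRep_apply, h2, mul_assoc (g θ),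
        mul_assoc (h θ), h1]
      simp only [mul_assoc])
    (fun θ b => hi _ b)
  exact ⟨w, hw⟩

/-- the type at the centre of a period -/
lemma type_center (hn : 0 < n) (hρ : IsFam x Set.univ ρ)
    {h : (Fin d → ℝ) → Mat n} (hd : ∀ θ, (h θ).det = 1)
    (hi : ∀ θ b, ρ θ b * h θ = h θ * bar (ρ (-θ) b)) {ζ : ℂ}
    (hζ : ∀ θ, h θ * bar (h (-θ)) = ζ • 1)
    {P p : Fin d → ℝ} (hPp : P = p + p) {g : (Fin d → ℝ) → Mat n} (hgd : ∀ θ, (g θ).det = 1)
    (hgi : ∀ θ b, ρ (θ + P) b * g θ = g θ * ρ θ b) {w : ℂ}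
    (hw : ∀ θ, g θ * h θ * bar (g (-θ - P)) = w • h (θ + P)) : HasType B (x p) (w * ζ) := by
  have e1 : -p + P = p := by rw [hPp]; abel
  have e2 : - -p - P = -p := by rw [hPp]; abel
  refine ⟨n, hn, ρ p, g (-p) * h (-p), hρ.rep p (Set.mem_univ _), ?_, ?_, ?_⟩
  · rw [det_mul, hgd, hd, mul_one]
  · intro b
    have h1 := hgi (-p) b
    rw [e1] at h1
    have h2 := hi (-p) b
    rw [neg_neg] at h2
    rw [← mul_assoc, h1, mul_assoc, h2, conjRep_apply, mul_assoc]
  · have h1 := hw (-p)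
    rw [e1, e2] at h1
    have h2 := hζ p
    change g (-p) * h (-p) * bar (g (-p) * h (-p)) = _
    rw [bar_mul, ← mul_assoc, h1, smul_mul_assoc, h2, smul_smul, Algebra.algebraMap_eq_smul_one]

/-- the product of the four types on a torus of dimension two is the commutator -/
theorem T2 [IsAzumaya R B] (hn : 0 < n) (hρ : IsFam x Set.univ ρ)
    (hconj : ∀ θ, (starRingEnd ℂ).comp (x θ) = x (-θ))
    {P₀ P₁ p₀ p₁ : Fin d → ℝ} (hP₀ : P₀ = p₀ + p₀) (hP₁ : P₁ = p₁ + p₁)
    (hx₀ : ∀ θ, x (θ + P₀) = x θ) (hx₁ : ∀ θ, x (θ + P₁) = x θ)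
    {g₀ g₁ : (Fin d → ℝ) → Mat n} (hc₀ : Continuous g₀) (hc₁ : Continuous g₁)
    (hd₀ : ∀ θ, (g₀ θ).det = 1) (hd₁ : ∀ θ, (g₁ θ).det = 1)
    (hi₀ : ∀ θ b, ρ (θ + P₀) b * g₀ θ = g₀ θ * ρ θ b)
    (hi₁ : ∀ θ b, ρ (θ + P₁) b * g₁ θ = g₁ θ * ρ θ b) {ω : ℂ}
    (hω : ∀ θ, g₁ (θ + P₀) * g₀ θ = ω • (g₀ (θ + P₁) * g₁ θ)) :
    ∃ s₀ s₁ s₂ s₃ : ℂ, HasType B (x 0) s₀ ∧ HasType B (x p₀) s₁ ∧ HasType B (x p₁) s₂ ∧
      HasType B (x (p₀ + p₁)) s₃ ∧ s₀ * s₁ * s₂ * s₃ = ω := by
  obtain ⟨h, ζ, hc, hd, hi, hζ⟩ := exists_h hn hρ hconj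
  obtain ⟨w₀, hw₀⟩ := exists_w hn hρ hconj hc hd hi hx₀ hc₀ hd₀ hi₀
  obtain ⟨w₁, hw₁⟩ := exists_w hn hρ hconj hc hd hi hx₁ hc₁ hd₁ hi₁
  have t0 : HasType B (x 0) (1 * ζ) := type_center hn hρ hd hi hζ (P := 0) (p := 0) (by simp)
    (g := fun _ => 1) (fun _ => det_one) (fun θ b => by rw [add_zero, one_mul, mul_one])
    (fun θ => by simp)
  have t1 : HasType B (x p₀) (w₀ * ζ) := type_center hn hρ hd hi hζ hP₀ hd₀ hi₀ hw₀
  have t2 : HasType B (x p₁) (w₁ * ζ) := type_center hn hρ hd hi hζ hP₁ hd₁ hi₁ hw₁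
  have t3 : HasType B (x (p₀ + p₁)) ((ω * w₁ * w₀) * ζ) := by
    refine type_center hn hρ hd hi hζ (P := P₀ + P₁) (p := p₀ + p₁) (by rw [hP₀, hP₁]; abel)
      (g := fun θ => g₁ (θ + P₀) * g₀ θ) (fun θ => by rw [det_mul, hd₀, hd₁, mul_one]) ?_ ?_
    · intro θ b
      rw [← mul_assoc, ← add_assoc, hi₁, mul_assoc, hi₀, mul_assoc]
    · intro θ
      have e1 : -θ - (P₀ + P₁) + P₀ = -θ - P₁ := by abel
      have e2 : -θ - (P₀ + P₁) = -(θ + P₁) - P₀ := by abel
      have e3 : θ + (P₀ + P₁) = θ + P₁ + P₀ := by abel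
      have h1 := hw₀ (θ + P₁)
      have h2 := hw₁ θ
      rw [hω, bar_mul, e1, e3, smul_mul_assoc, smul_mul_assoc]
      rw [show (ω * w₁ * w₀) • h (θ + P₁ + P₀) = ω • w₁ • w₀ • h (θ + P₁ + P₀) by
        rw [smul_smul, smul_smul, mul_assoc], ← h1]
      congr 1
      calc g₀ (θ + P₁) * g₁ θ * h θ * (bar (g₁ (-θ - P₁)) * bar (g₀ (-θ - (P₀ + P₁))))
          = g₀ (θ + P₁) * (g₁ θ * h θ * bar (g₁ (-θ - P₁))) * bar (g₀ (-θ - (P₀ + P₁))) := by
            simp only [mul_assoc]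
        _ = _ := by
          rw [h2, e2, mul_smul_comm, smul_mul_assoc]
  refine ⟨_, _, _, _, t0, t1, t2, t3, ?_⟩
  have q0 := t0.sq
  have q1 := t1.sq
  have q2 := t2.sq
  have hζ2 : ζ ^ 2 = 1 := by rw [one_mul] at q0; exact q0
  have hw02 : w₀ ^ 2 = 1 := by rw [mul_pow, hζ2, mul_one] at q1; exact q1
  have hw12 : w₁ ^ 2 = 1 := by rw [mul_pow, hζ2, mul_one] at q2; exact q2
  calc 1 * ζ * (w₀ * ζ) * (w₁ * ζ) * (ω * w₁ * w₀ * ζ)
      = ω * w₀ ^ 2 * w₁ ^ 2 * (ζ ^ 2) ^ 2 := by ring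
    _ = ω := by rw [hw02, hw12, hζ2]; ring

/-- existence of types at the real points -/
theorem exists_type [IsAzumaya R B] (hx : ∀ r, Continuous fun θ => x θ r)
    (hconj : ∀ θ, (starRingEnd ℂ).comp (x θ) = x (-θ)) {q : Fin d → ℝ}
    (hq : ∀ θ, x (θ + (q + q)) = x θ) : ∃ s : ℂ, HasType B (x q) s := by
  obtain ⟨n, hn, ρ, hρ⟩ := a_triv R B d x hx
  have hconj' : ∀ θ, (starRingEnd ℂ).comp (x (θ + q)) = x (-θ + q) := by
    intro θ
    rw [hconj, ← hq (-(θ + q))]
    congr 1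
    abel
  obtain ⟨h, ζ, hc, hd, hi, hζ⟩ := exists_h hn (hρ.shift' q) hconj'
  have t0 : HasType B (x (0 + q)) (1 * ζ) := type_center (x := fun θ => x (θ + q)) hn (hρ.shift' q)
    hd hi hζ (P := 0) (p := 0) (by simp) (g := fun _ => 1) (fun _ => det_one)
    (fun θ b => by rw [add_zero, one_mul, mul_one]) (fun θ => by simp)
  rw [zero_add] at t0
  exact ⟨_, t0⟩

/-- the product of the eight types on a torus of dimension three is one -/
theorem T3 [IsAzumaya R B] (hx : ∀ r, Continuous fun θ => x θ r)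
    (hconj : ∀ θ, (starRingEnd ℂ).comp (x θ) = x (-θ)) {q p₀ p₁ p₂ : Fin d → ℝ}
    (hq : ∀ θ, x (θ + (q + q)) = x θ) (hp₀ : ∀ θ, x (θ + (p₀ + p₀)) = x θ)
    (hp₁ : ∀ θ, x (θ + (p₁ + p₁)) = x θ) (hp₂ : ∀ θ, x (θ + (p₂ + p₂)) = x θ)
    (s : Bool → Bool → Bool → ℂ)
    (hs : ∀ a b c, HasType B (x (q + (if a then p₀ else 0) + (if b then p₁ else 0) +
      (if c then p₂ else 0))) (s a b c)) :
    ∏ a, ∏ b, ∏ c, s a b c = 1 := by
  obtain ⟨n, hn, ρ, hρ⟩ := a_triv R B d x hx
  obtain ⟨g₀, hc₀, hd₀, hi₀⟩ := a_lift R B d x n hn ρ _ hρ (hρ.shift hp₀)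
  obtain ⟨g₁, hc₁, hd₁, hi₁⟩ := a_lift R B d x n hn ρ _ hρ (hρ.shift hp₁)
  obtain ⟨ω, _, hω⟩ := scalar_const (B := B) hn hρ (fun θ b => ρ (θ + (p₀ + p₀) + (p₁ + p₁)) b)
    (fun θ => g₁ (θ + (p₀ + p₀)) * g₀ θ) (fun θ => g₀ (θ + (p₁ + p₁)) * g₁ θ)
    ((hc₁.comp (continuous_add_const _)).mul hc₀) ((hc₀.comp (continuous_add_const _)).mul hc₁)
    (fun θ => by rw [det_mul, hd₀, hd₁, mul_one]) (fun θ => by rw [det_mul, hd₀, hd₁, mul_one])
    (fun θ b => by
      have h1 := hi₁ (θ + (p₀ + p₀)) b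
      have h2 := hi₀ θ b
      rw [← mul_assoc, h1, mul_assoc, h2, mul_assoc])
    (fun θ b => by
      have h1 := hi₀ (θ + (p₁ + p₁)) b
      have h2 := hi₁ θ b
      rw [add_right_comm, ← mul_assoc, h1, mul_assoc, h2, mul_assoc])
  -- the statement at a centre `r`
  have key : ∀ r : Fin d → ℝ, (∀ θ, x (θ + (r + r)) = x θ) → ∀ s₀ s₁ s₂ s₃ : ℂ,
      HasType B (x r) s₀ → HasType B (x (r + p₀)) s₁ → HasType B (x (r + p₁)) s₂ →
      HasType B (x (r + p₀ + p₁)) s₃ → s₀ * s₁ * s₂ * s₃ = ω := by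
    intro r hr s₀ s₁ s₂ s₃ h0 h1 h2 h3
    have hconj' : ∀ θ, (starRingEnd ℂ).comp (x (θ + r)) = x (-θ + r) := by
      intro θ
      rw [hconj, ← hr (-(θ + r))]
      congr 1
      abel
    obtain ⟨t₀, t₁, t₂, t₃, e0, e1, e2, e3, e⟩ := T2 (x := fun θ => x (θ + r))
      (ρ := fun θ => ρ (θ + r)) hn (hρ.shift' r) hconj' (P₀ := p₀ + p₀) (P₁ := p₁ + p₁) rfl rfl
      (fun θ => by rw [add_right_comm, hp₀]) (fun θ => by rw [add_right_comm, hp₁])
      (g₀ := fun θ => g₀ (θ + r)) (g₁ := fun θ => g₁ (θ + r))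
      (hc₀.comp (continuous_add_const _)) (hc₁.comp (continuous_add_const _))
      (fun θ => hd₀ _) (fun θ => hd₁ _)
      (fun θ b => by rw [add_right_comm]; exact hi₀ _ b)
      (fun θ b => by rw [add_right_comm]; exact hi₁ _ b) (ω := ω)
      (fun θ => by
        have := hω (θ + r)
        rw [add_right_comm θ (p₀ + p₀) r, add_right_comm θ (p₁ + p₁) r]
        exact this)
    rw [zero_add] at e0
    rw [add_comm p₀ r] at e1
    rw [add_comm p₁ r] at e2
    rw [show p₀ + p₁ + r = r + p₀ + p₁ by abel] at e3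
    rw [h0.unique e0, h1.unique e1, h2.unique e2, h3.unique e3, e]
  have k1 := key q hq _ _ _ _ (by simpa using hs false false false)
    (by simpa using hs true false false) (by simpa using hs false true false)
    (by simpa using hs true true false)
  have k2 := key (q + p₂) (fun θ => by
      have h1 : θ + (q + p₂ + (q + p₂)) = θ + (q + q) + (p₂ + p₂) := by abel
      rw [h1, hp₂, hq]) _ _ _ _ (by simpa using hs false false true)
    (by
      have h1 := hs true false true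
      rw [show q + p₂ + p₀ = q + p₀ + p₂ by abel]
      simpa using h1)
    (by
      have h1 := hs false true true
      rw [show q + p₂ + p₁ = q + p₁ + p₂ by abel]
      simpa using h1)
    (by
      have h1 := hs true true true
      rw [show q + p₂ + p₀ + p₁ = q + p₀ + p₁ + p₂ by abel]
      simpa using h1)
  have hω2 : ω ^ 2 = 1 := by
    rw [← k1]
    have a0 := (hs false false false).sq
    have a1 := (hs true false false).sq
    have a2 := (hs false true false).sq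
    have a3 := (hs true true false).sq
    rw [mul_pow, mul_pow, mul_pow, a0, a1, a2, a3]
    ring
  rw [Fintype.prod_bool]
  simp only [Fintype.prod_bool]
  calc _ = (s false false false * s true false false * s false true false * s true true false) *
      (s false false true * s true false true * s false true true * s true true true) := by ring
    _ = 1 := by rw [k1, k2, ← sq, hω2]

end fam

end Pool.Agent.W620.BM
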