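import Pool.Agent.W620.BM.Def
import Pool.Agent.W620.BM.Torus

/-!
# The cover of `X` by a torus and the values of Azumaya algebras at real points
-/

open scoped TensorProduct Topology
open MvPolynomial

namespace Pool.Agent.W620.BM

section points

variable {A : Type*} [CommRing A] [Algebra ℚ A]

/-- the point of `X` with given coordinates -/
noncomputable def mkPt (v : Fin 6 → A) (hv : IsUnit (aeval v disc)) : CoordRing →+* A :=
  IsLocalization.Away.lift disc (g := (aeval v : MvPolynomial (Fin 6) ℚ →ₐ[ℚ] A).toRingHom) hv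

lemma mkPt_algebraMap (v : Fin 6 → A) (hv : IsUnit (aeval v disc)) (a : MvPolynomial (Fin 6) ℚ) :
    mkPt v hv (algebraMap _ CoordRing a) = aeval v a :=
  IsLocalization.Away.lift_eq disc hv a

lemma coord_mkPt (v : Fin 6 → A) (hv : IsUnit (aeval v disc)) : coord (mkPt v hv) = v := by
  funext i
  unfold coord
  rw [mkPt_algebraMap, aeval_X]

omit [Algebra ℚ A] in
lemma point_ext [CharZero A] [IsDomain A] {P Q : CoordRing →+* A} (h : coord P = coord Q) : P = Q := by
  apply IsLocalization.ringHom_ext (Submonoid.powers disc)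
  apply MvPolynomial.ringHom_ext
  · intro c
    have h1 : (P.comp (algebraMap (MvPolynomial (Fin 6) ℚ) CoordRing)).comp C =
        (Q.comp (algebraMap (MvPolynomial (Fin 6) ℚ) CoordRing)).comp C := Subsingleton.elim _ _
    exact DFunLike.congr_fun h1 c
  · intro i
    exact congrFun h i

lemma aeval_disc (v : Fin 6 → A) : aeval v disc =
    v 0 * v 1 * ((v 2 ^ 2 + v 0 * v 3 ^ 2 - v 1 * v 4 ^ 2 - v 0 * v 1 * v 5 ^ 2) ^ 2 -
    v 0 * (2 * v 2 * v 3 - 2 * v 1 * v 4 * v 5) ^ 2) := by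
  simp [disc]

lemma disc_one (η : A) (hη : η ^ 2 = 1) : IsUnit (aeval ![1, 1, η, 0, 0, 0] disc) := by
  rw [aeval_disc]
  simp only [Matrix.cons_val]
  have : (1 : A) * 1 * ((η ^ 2 + 1 * 0 ^ 2 - 1 * 0 ^ 2 - 1 * 1 * 0 ^ 2) ^ 2 -
    1 * (2 * η * 0 - 2 * 1 * 0 * 0) ^ 2) = 1 := by
    rw [hη]; ring
  rw [this]
  exact isUnit_one

end points

section cover

/-- the cover -/
noncomputable def cov (z : Fin 6 → ℂ) : Fin 6 → ℂ :=
  ![z 0 ^ 2, z 1 ^ 2, (z 2 + z 3 + z 4 + z 5) / 4, (z 2 - z 3 + z 4 - z 5) / (4 * z 0),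
    (z 2 + z 3 - z 4 - z 5) / (4 * z 1), (z 2 - z 3 - z 4 + z 5) / (4 * z 0 * z 1)]

lemma disc_cov (z : Fin 6 → ℂ) (hz : ∀ i, z i ≠ 0) :
    aeval (cov z) disc = z 0 ^ 2 * z 1 ^ 2 * (z 2 * z 3 * z 4 * z 5) := by
  rw [aeval_disc]
  simp only [cov, Matrix.cons_val]
  have h0 := hz 0
  have h1 := hz 1
  field_simp
  ring

lemma disc_cov_unit (z : Fin 6 → ℂ) (hz : ∀ i, z i ≠ 0) : IsUnit (aeval (cov z) disc) := by
  rw [disc_cov z hz, isUnit_iff_ne_zero]
  have := hz 0; have := hz 1; have := hz 2; have := hz 3; have := hz 4; have := hz 5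
  positivity

/-- the point of `X` below the point of the torus with the arguments `θ` -/
noncomputable def pθ (θ : Fin 6 → ℝ) : Fin 6 → ℂ := fun i => Complex.exp (Complex.I * θ i)

lemma pθ_ne (θ : Fin 6 → ℝ) (i : Fin 6) : pθ θ i ≠ 0 := Complex.exp_ne_zero _

noncomputable def xθ (θ : Fin 6 → ℝ) : CoordRing →+* ℂ :=
  mkPt (cov (pθ θ)) (disc_cov_unit _ (pθ_ne θ))

lemma coord_xθ (θ : Fin 6 → ℝ) : coord (xθ θ) = cov (pθ θ) := coord_mkPt _ _

lemma continuous_pθ (i : Fin 6) : Continuous fun θ => pθ θ i := by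
  unfold pθ
  fun_prop

lemma continuous_cov (i : Fin 6) : Continuous fun θ => cov (pθ θ) i := by
  have h := continuous_pθ
  have hne : ∀ θ i, pθ θ i ≠ 0 := pθ_ne
  have h4 : (4 : ℂ) ≠ 0 := by norm_num
  fin_cases i
  · exact (h 0).pow 2
  · exact (h 1).pow 2
  · exact ((((h 2).add (h 3)).add (h 4)).add (h 5)).div_const 4
  · exact ((((h 2).sub (h 3)).add (h 4)).sub (h 5)).div (continuous_const.mul (h 0))
      (fun θ => mul_ne_zero h4 (hne θ 0))
  · exact ((((h 2).add (h 3)).sub (h 4)).sub (h 5)).div (continuous_const.mul (h 1))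
      (fun θ => mul_ne_zero h4 (hne θ 1))
  · exact ((((h 2).sub (h 3)).sub (h 4)).add (h 5)).div ((continuous_const.mul (h 0)).mul (h 1))
      (fun θ => mul_ne_zero (mul_ne_zero h4 (hne θ 0)) (hne θ 1))

lemma continuous_aeval (a : MvPolynomial (Fin 6) ℚ) :
    Continuous fun θ => aeval (cov (pθ θ)) a := by
  induction a using MvPolynomial.induction_on with
  | C c =>
    simp only [aeval_C]
    exact continuous_const
  | add p q hp hq =>
    simp only [map_add]
    exact hp.add hq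
  | mul_X p i hp =>
    simp only [map_mul, aeval_X]
    exact hp.mul (continuous_cov i)

lemma continuous_xθ (r : CoordRing) : Continuous fun θ => xθ θ r := by
  obtain ⟨n, a, h⟩ := IsLocalization.Away.surj disc r
  have h1 : ∀ θ, xθ θ r = aeval (cov (pθ θ)) a / (aeval (cov (pθ θ)) disc) ^ n := by
    intro θ
    have h2 := congrArg (xθ θ) h
    rw [map_mul, map_pow] at h2
    unfold xθ at h2 ⊢
    rw [mkPt_algebraMap, mkPt_algebraMap] at h2
    rw [eq_div_iff (pow_ne_zero _ (disc_cov_unit _ (pθ_ne θ)).ne_zero)]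
    exact h2
  simp only [h1]
  exact (continuous_aeval a).div ((continuous_aeval disc).pow n)
    (fun θ => pow_ne_zero _ (disc_cov_unit _ (pθ_ne θ)).ne_zero)

lemma conj_xθ (θ : Fin 6 → ℝ) : (starRingEnd ℂ).comp (xθ θ) = xθ (-θ) := by
  apply point_ext
  have h1 : ∀ i, starRingEnd ℂ (pθ θ i) = pθ (-θ) i := by
    intro i
    unfold pθ
    rw [← Complex.exp_conj, map_mul, Complex.conj_I, Complex.conj_ofReal]
    simp
  have h2 : coord ((starRingEnd ℂ).comp (xθ θ)) = fun i => starRingEnd ℂ (cov (pθ θ) i) := by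
    funext i
    rw [← coord_xθ]
    rfl
  rw [h2, coord_xθ]
  have h4 : starRingEnd ℂ 4 = 4 := map_ofNat (starRingEnd ℂ) 4
  funext i
  fin_cases i <;> simp [cov, h1, h4]

lemma xθ_eq {θ θ' : Fin 6 → ℝ} (h : cov (pθ θ) = cov (pθ θ')) : xθ θ = xθ θ' := by
  apply point_ext
  rw [coord_xθ, coord_xθ, h]

/-- the vector of angles -/
noncomputable def ang (v : Fin 6 → Bool) : Fin 6 → ℝ := fun i => if v i then Real.pi else 0

lemma pθ_add (θ θ' : Fin 6 → ℝ) (i : Fin 6) : pθ (θ + θ') i = pθ θ i * pθ θ' i := by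
  unfold pθ
  rw [← Complex.exp_add]
  congr 1
  rw [Pi.add_apply]
  push_cast
  ring

/-- the sign -/
def sg : Bool → ℂ
  | false => 1
  | true => -1

lemma sg_not (b : Bool) : sg (!b) = -sg b := by cases b <;> simp [sg]

lemma pθ_ang (v : Fin 6 → Bool) (i : Fin 6) : pθ (ang v) i = sg (v i) := by
  unfold pθ ang
  cases h : v i
  · simp [sg]
  · simp only [sg]
    rw [if_pos trivial, mul_comm, Complex.exp_pi_mul_I]

lemma pθ_ang_sq (v : Fin 6 → Bool) (i : Fin 6) : pθ (ang v) i * pθ (ang v) i = 1 := by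
  rw [pθ_ang]
  cases v i <;> simp [sg]

lemma xθ_per (v : Fin 6 → Bool) (θ : Fin 6 → ℝ) : xθ (θ + (ang v + ang v)) = xθ θ := by
  apply xθ_eq
  congr 1
  funext i
  rw [pθ_add, pθ_add, pθ_ang_sq, mul_one]

lemma single_eq (i : Fin 6) : (Pi.single i Real.pi : Fin 6 → ℝ) =
    ang (Function.update (fun _ => false) i true) := by
  funext j
  unfold ang
  by_cases h : j = i
  · subst h
    simp
  · rw [Pi.single_eq_of_ne h, Function.update_of_ne h]
    simp

/-- changing the signs of three coordinates -/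
lemma ang_update (v : Fin 6 → Bool) {i j k : Fin 6} (hij : i ≠ j) (hik : i ≠ k) (hjk : j ≠ k)
    (a b c : Bool) :
    ang (Function.update (Function.update (Function.update v i a) j b) k c) =
      ang (Function.update (Function.update (Function.update v i false) j false) k false) +
        (if a then Pi.single i Real.pi else 0) + (if b then Pi.single j Real.pi else 0) +
        (if c then Pi.single k Real.pi else 0) := by
  funext l
  simp only [Pi.add_apply]
  by_cases hk : l = k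
  · subst hk
    cases a <;> cases b <;> cases c <;> simp [ang, hik.symm, hjk.symm]
  · by_cases hj : l = j
    · subst hj
      cases a <;> cases b <;> cases c <;> simp [ang, hij.symm, hjk]
    · by_cases hi : l = i
      · subst hi
        cases a <;> cases b <;> cases c <;> simp [ang, hij, hik]
      · cases a <;> cases b <;> cases c <;> simp [ang, hi, hj, hk]

lemma prod_bool3 (F : Bool → Bool → Bool → ℂ) :
    ∏ ε : Fin 3 → Bool, F (ε 0) (ε 1) (ε 2) = ∏ a, ∏ b, ∏ c, F a b c := by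
  let e : (Fin 3 → Bool) ≃ Bool × Bool × Bool :=
    { toFun := fun ε => (ε 0, ε 1, ε 2)
      invFun := fun t => ![t.1, t.2.1, t.2.2]
      left_inv := fun ε => by
        funext i
        fin_cases i <;> rfl
      right_inv := fun t => rfl }
  rw [Fintype.prod_equiv e (fun ε => F (ε 0) (ε 1) (ε 2)) (fun t => F t.1 t.2.1 t.2.2)
    (fun ε => rfl), Fintype.prod_prod_type]
  refine Finset.prod_congr rfl fun a _ => ?_
  rw [Fintype.prod_prod_type]

lemma cov_inv₁ (z : Fin 6 → ℂ) : cov ![-z 0, z 1, z 3, z 2, z 5, z 4] = cov z := by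
  funext i
  fin_cases i <;> simp only [cov, Fin.zero_eta, Fin.mk_one, Fin.reduceFinMk, Matrix.cons_val] <;>
    ring

lemma cov_inv₂ (z : Fin 6 → ℂ) : cov ![z 0, -z 1, z 4, z 5, z 2, z 3] = cov z := by
  funext i
  fin_cases i <;> simp only [cov, Fin.zero_eta, Fin.mk_one, Fin.reduceFinMk, Matrix.cons_val] <;>
    ring

lemma pθ_inv₁ (v : Fin 6 → Bool) : pθ (ang ![!v 0, v 1, v 3, v 2, v 5, v 4]) =
    ![-pθ (ang v) 0, pθ (ang v) 1, pθ (ang v) 3, pθ (ang v) 2, pθ (ang v) 5, pθ (ang v) 4] := by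
  funext i
  rw [pθ_ang]
  fin_cases i
  · exact (sg_not (v 0)).trans (by rw [← pθ_ang]; rfl)
  · exact (pθ_ang v 1).symm
  · exact (pθ_ang v 3).symm
  · exact (pθ_ang v 2).symm
  · exact (pθ_ang v 5).symm
  · exact (pθ_ang v 4).symm

lemma pθ_inv₂ (v : Fin 6 → Bool) : pθ (ang ![v 0, !v 1, v 4, v 5, v 2, v 3]) =
    ![pθ (ang v) 0, -pθ (ang v) 1, pθ (ang v) 4, pθ (ang v) 5, pθ (ang v) 2, pθ (ang v) 3] := by
  funext i
  rw [pθ_ang]
  fin_cases i
  · exact (pθ_ang v 0).symm
  · exact (sg_not (v 1)).trans (by rw [← pθ_ang]; rfl)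
  · exact (pθ_ang v 4).symm
  · exact (pθ_ang v 5).symm
  · exact (pθ_ang v 2).symm
  · exact (pθ_ang v 3).symm

variable {B : Type} [Ring B] [Algebra CoordRing B] [IsAzumaya CoordRing B]

lemma type_exists (v : Fin 6 → Bool) : ∃ s : ℂ, HasType B (xθ (ang v)) s :=
  exists_type continuous_xθ conj_xθ (xθ_per v)

/-- the types at the two real points agree -/
theorem same_type {s s' : ℂ}
    (h : HasType B (xθ (ang ![false, false, false, false, false, false])) s)
    (h' : HasType B (xθ (ang ![false, false, true, true, true, true])) s') : s = s' := by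
  choose E hE using fun v : Fin 6 → Bool => type_exists (B := B) v
  rw [h.unique (hE _), h'.unique (hE _)]
  symm
  refine a_comb E (fun v => (hE v).sq) ?_ ?_ ?_
  · intro v i j k hij hik hjk
    have hsingle : ∀ (l : Fin 6) (θ : Fin 6 → ℝ),
        xθ (θ + (Pi.single l Real.pi + Pi.single l Real.pi)) = xθ θ := by
      intro l θ
      rw [single_eq]
      exact xθ_per _ _
    have h1 := T3 (R := CoordRing) (B := B) continuous_xθ conj_xθ
      (q := ang (Function.update (Function.update (Function.update v i false) j false) k false))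
      (p₀ := Pi.single i Real.pi) (p₁ := Pi.single j Real.pi) (p₂ := Pi.single k Real.pi)
      (xθ_per _) (hsingle i) (hsingle j) (hsingle k)
      (fun a b c => E (Function.update (Function.update (Function.update v i a) j b) k c))
      (fun a b c => by
        rw [← ang_update v hij hik hjk a b c]
        exact hE _)
    rw [← h1]
    exact prod_bool3 (fun a b c =>
      E (Function.update (Function.update (Function.update v i a) j b) k c))
  · intro v
    refine (hE _).unique ?_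
    have h1 : xθ (ang ![!v 0, v 1, v 3, v 2, v 5, v 4]) = xθ (ang v) := by
      apply xθ_eq
      rw [pθ_inv₁, cov_inv₁]
    rw [h1]
    exact hE v
  · intro v
    refine (hE _).unique ?_
    have h1 : xθ (ang ![v 0, !v 1, v 4, v 5, v 2, v 3]) = xθ (ang v) := by
      apply xθ_eq
      rw [pθ_inv₂, cov_inv₂]
    rw [h1]
    exact hE v

/-! ### the two real points -/

variable (B) in
/-- the degrees at the two real points agree -/
lemma same_degree {n n' : ℕ} (hn : 0 < n) (hn' : 0 < n') {θ θ' : Fin 6 → ℝ} {ρ : B →+* Mat n}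
    {ρ' : B →+* Mat n'} (h : IsRep (xθ θ) ρ) (h' : IsRep (xθ θ') ρ') : n = n' := by
  obtain ⟨m, hm, σ, hσ⟩ := a_triv CoordRing B 6 xθ continuous_xθ
  have h1 := a_deg CoordRing B _ _ _ _ _ hn hm h (hσ.rep θ (Set.mem_univ _))
  have h2 := a_deg CoordRing B _ _ _ _ _ hn' hm h' (hσ.rep θ' (Set.mem_univ _))
  rw [h1, h2]

/-- the real points with `t = 1` and `t = -1` -/
noncomputable def rp (η : ℝ) (hη : η ^ 2 = 1) : CoordRing →+* ℝ := mkPt ![1, 1, η, 0, 0, 0] (disc_one η hη)

lemma coord_rp (η : ℝ) (hη : η ^ 2 = 1) : coord (rp η hη) = ![1, 1, η, 0, 0, 0] := coord_mkPt _ _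

lemma rp_one : Complex.ofRealHom.comp (rp 1 (one_pow 2)) =
    xθ (ang ![false, false, false, false, false, false]) := by
  apply point_ext
  have h2 : coord (Complex.ofRealHom.comp (rp 1 (one_pow 2))) =
      fun i => (((![1, 1, 1, 0, 0, 0] : Fin 6 → ℝ) i : ℝ) : ℂ) := by
    funext i
    rw [← coord_rp 1 (one_pow 2)]
    rfl
  rw [h2, coord_xθ]
  funext i
  fin_cases i <;> (simp [cov, pθ_ang, sg]; try norm_num)

lemma rp_neg : Complex.ofRealHom.comp (rp (-1) (by norm_num)) =
    xθ (ang ![false, false, true, true, true, true]) := by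
  apply point_ext
  have h2 : coord (Complex.ofRealHom.comp (rp (-1) (by norm_num))) =
      fun i => (((![1, 1, -1, 0, 0, 0] : Fin 6 → ℝ) i : ℝ) : ℂ) := by
    funext i
    rw [← coord_rp (-1) (by norm_num)]
    rfl
  rw [h2, coord_xθ]
  funext i
  fin_cases i <;> (simp [cov, pθ_ang, sg]; try norm_num)

end cover

/-- conjugate real forms are isomorphic -/
lemma realForm_equiv {n : ℕ} {h h' k : Mat n} (hk : k.det ≠ 0)
    (e : h' * bar k = k * h) : Nonempty (realForm h ≃ₐ[ℝ] realForm h') := by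
  have hu : IsUnit k.det := isUnit_iff_ne_zero.2 hk
  have k1 : k * k⁻¹ = 1 := Matrix.mul_nonsing_inv k hu
  have k2 : k⁻¹ * k = 1 := Matrix.nonsing_inv_mul k hu
  have b1 : bar k * bar k⁻¹ = 1 := by rw [← bar_mul, k1, bar_one]
  have b2 : bar k⁻¹ * bar k = 1 := by rw [← bar_mul, k2, bar_one]
  have f1 : ∀ m : Mat n, m * h = h * bar m → (k * m * k⁻¹) * h' = h' * bar (k * m * k⁻¹) := by
    intro m hm
    have e1 : h' = k * h * bar k⁻¹ := by
      rw [← e, mul_assoc, b1, mul_one]
    rw [bar_mul, bar_mul]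
    calc k * m * k⁻¹ * h' = k * m * (k⁻¹ * k) * h * bar k⁻¹ := by rw [e1]; simp only [mul_assoc]
      _ = k * (m * h) * bar k⁻¹ := by rw [k2, mul_one, mul_assoc k m h]
      _ = (k * h) * bar m * bar k⁻¹ := by rw [hm]; simp only [mul_assoc]
      _ = h' * (bar k * bar m * bar k⁻¹) := by rw [← e]; simp only [mul_assoc]
  have f2 : ∀ m : Mat n, m * h' = h' * bar m → (k⁻¹ * m * k) * h = h * bar (k⁻¹ * m * k) := by
    intro m hm
    have e1 : h = k⁻¹ * h' * bar k := by
      rw [mul_assoc, e, ← mul_assoc, k2, one_mul]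
    rw [bar_mul, bar_mul]
    calc k⁻¹ * m * k * h = k⁻¹ * m * (h' * bar k) := by rw [e]; simp only [mul_assoc]
      _ = k⁻¹ * (m * h') * bar k := by simp only [mul_assoc]
      _ = k⁻¹ * h' * (bar k * bar k⁻¹) * bar m * bar k := by
        rw [hm, b1, mul_one]; simp only [mul_assoc]
      _ = (k⁻¹ * h' * bar k) * (bar k⁻¹ * bar m * bar k) := by simp only [mul_assoc]
      _ = h * (bar k⁻¹ * bar m * bar k) := by rw [← e1]
  refine ⟨{ toFun := fun m => ⟨k * m.1 * k⁻¹, f1 m.1 m.2⟩
            invFun := fun m => ⟨k⁻¹ * m.1 * k, f2 m.1 m.2⟩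
            left_inv := fun m => Subtype.ext ?_
            right_inv := fun m => Subtype.ext ?_
            map_mul' := fun m m' => Subtype.ext ?_
            map_add' := fun m m' => Subtype.ext ?_
            commutes' := fun r => Subtype.ext ?_ }⟩
  · change k⁻¹ * (k * m.1 * k⁻¹) * k = m.1
    calc k⁻¹ * (k * m.1 * k⁻¹) * k = (k⁻¹ * k) * m.1 * (k⁻¹ * k) := by simp only [mul_assoc]
      _ = m.1 := by rw [k2, one_mul, mul_one]
  · change k * (k⁻¹ * m.1 * k) * k⁻¹ = m.1
    calc k * (k⁻¹ * m.1 * k) * k⁻¹ = (k * k⁻¹) * m.1 * (k * k⁻¹) := by simp only [mul_assoc]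
      _ = m.1 := by rw [k1, one_mul, mul_one]
  · change k * (m.1 * m'.1) * k⁻¹ = (k * m.1 * k⁻¹) * (k * m'.1 * k⁻¹)
    calc k * (m.1 * m'.1) * k⁻¹ = k * m.1 * (k⁻¹ * k) * m'.1 * k⁻¹ := by
          rw [k2, mul_one]; simp only [mul_assoc]
      _ = (k * m.1 * k⁻¹) * (k * m'.1 * k⁻¹) := by simp only [mul_assoc]
  · change k * (m.1 + m'.1) * k⁻¹ = k * m.1 * k⁻¹ + k * m'.1 * k⁻¹
    rw [mul_add, add_mul]
  · change k * (algebraMap ℝ (Mat n) r) * k⁻¹ = algebraMap ℝ (Mat n) r
    rw [Algebra.algebraMap_eq_smul_one, mul_smul_comm, mul_one, smul_mul_assoc, k1]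

section final

variable (B : Type) [Ring B] [Algebra CoordRing B]

/-- the fibre of `B` at the real point `P` is the real form given by `h` -/
def RF (P : CoordRing →+* ℝ) {n : ℕ} (h : Mat n) : Prop :=
  letI := P.toAlgebra
  Nonempty ((ℝ ⊗[CoordRing] B) ≃ₐ[ℝ] realForm h)

variable [IsAzumaya CoordRing B]

lemma exists_RF (P : CoordRing →+* ℝ) {s : ℂ} (hP : HasType B (Complex.ofRealHom.comp P) s) :
    ∃ (n : ℕ) (_ : 0 < n) (ρ : B →+* Mat n) (h : Mat n), IsRep (Complex.ofRealHom.comp P) ρ ∧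
      h.det = 1 ∧ h * bar h = algebraMap ℂ (Mat n) s ∧ RF B P h := by
  obtain ⟨n, hn, ρ, h, h1, h2, h3, h4⟩ := hP
  refine ⟨n, hn, ρ, h, h1, h2, h4, ?_⟩
  letI := P.toAlgebra
  exact a_fib CoordRing B n hn ρ h h1 h2 h3

/-- the fibres at the two real points are the same real form -/
theorem real_both : ∃ (n : ℕ) (h : Mat n), RF B (rp 1 (one_pow 2)) h ∧
    RF B (rp (-1) (by norm_num)) h := by
  obtain ⟨s, hs⟩ := type_exists (B := B) ![false, false, false, false, false, false]
  obtain ⟨s', hs'⟩ := type_exists (B := B) ![false, false, true, true, true, true]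
  have hss := same_type hs hs'
  subst hss
  have hs0 : s ≠ 0 := by
    intro h
    have := hs.sq
    rw [h] at this
    norm_num at this
  rw [← rp_one] at hs
  rw [← rp_neg] at hs'
  obtain ⟨n, hn, ρ, h, h1, h2, h3, h4⟩ := exists_RF B _ hs
  obtain ⟨n', hn', ρ', h', h1', h2', h3', h4'⟩ := exists_RF B _ hs'
  rw [rp_one] at h1
  rw [rp_neg] at h1'
  have hnn : n = n' := same_degree B hn hn' h1 h1'
  subst hnn
  obtain ⟨k, hk, e⟩ := a_h90 n h h' s hs0 (by rw [h2]; exact one_ne_zero)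
    (by rw [h2']; exact one_ne_zero) h3 h3'
  obtain ⟨e1⟩ := realForm_equiv hk e
  obtain ⟨e2⟩ := h4'
  exact ⟨n, h, h4, ⟨e2.trans e1.symm⟩⟩

end final

end Pool.Agent.W620.BM
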