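import Pool.Agent.W620.BM.Lem1

/-!
# Brauer-Manin set versus descent: the variety, the group, the torsor

We give the objects by their points with values in arbitrary commutative `ℚ`-algebras `A`.

* `G(A)`: the triples `(e₁, e₂, g)` with `e₁² = e₂² = 1` and `g` in
  `A[s₁, s₂, i] / (s₁² - 1, s₂² - 1, i² + 1)` of norm one, where the norm goes to `A[s₁, s₂]`.  As
  `ℚ[s₁, s₂] = ℚ⁴`, the elements `g` form the torus `T⁴`, `T = SO₂` the norm one torus of `ℚ(i)/ℚ`.
  The pairs `(e₁, e₂)` form `μ₂ × μ₂ = (ℤ/2)²`, which acts on `T⁴` through `s_j ↦ e_j s_j`.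
* `X`: an open subvariety of the affine space with coordinates `(d₁, d₂, t₀, t₁, t₂, t₃)`, given by
  `d₁ d₂ N(t) ≠ 0`, where `N(t)` is the norm of `t = t₀ + t₁ √d₁ + t₂ √d₂ + t₃ √d₁ √d₂`.
* `Y → X`: the pairs `(c, u)` with `c₁² = d₁`, `c₂² = d₂`, `u` in `A[s₁, s₂, i]` and
  `t₀ + t₁ c₁ s₁ + t₂ c₂ s₂ + t₃ c₁ c₂ s₁ s₂ = N(u)`.
-/

open scoped TensorProduct
open MvPolynomial

namespace Pool.Agent.W620.BM

section group

variable {A : Type*} [CommRing A] {B : Type*} [CommRing B]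

/-- the group structure on `G(A)` -/
instance : Group (GPoint A) :=
  Group.ofLeftAxioms GPoint.mul_assoc' GPoint.one_mul' GPoint.inv_mul'

/-- The map `G(A) → G(B)` given by a homomorphism `f : A → B`. -/
def GPoint.map (f : A →+* B) (γ : GPoint A) : GPoint B where
  e₁ := f γ.e₁
  e₂ := f γ.e₂
  g := mapM f γ.g
  he₁ := map_sq_one f γ.he₁
  he₂ := map_sq_one f γ.he₂
  hg := map_nrm_one f γ.hg

/-- The map `Y(A) → Y(B)` given by a homomorphism `f : A → B`. -/
def YPoint.map (f : A →+* B) (y : YPoint A) : YPoint B where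
  c₁ := f y.c₁
  c₂ := f y.c₂
  u := mapM f y.u
  hc₁ := y.hc₁.map f
  hc₂ := y.hc₂.map f
  hu := map_nrm_unit f y.hu

/-- The right action `(c₁, c₂, u) (e₁, e₂, g) = (c₁ e₁, c₂ e₂, ψ(u) g)` of `G(A)` on `Y(A)`, with `ψ`
the automorphism `s₁ ↦ e₁ s₁`, `s₂ ↦ e₂ s₂` of `A[s₁, s₂, i]`. -/
def YPoint.act (y : YPoint A) (γ : GPoint A) : YPoint A where
  c₁ := y.c₁ * γ.e₁
  c₂ := y.c₂ * γ.e₂
  u := scaleM γ.e₁ γ.e₂ y.u * γ.g
  hc₁ := act_unit y.hc₁ γ.he₁
  hc₂ := act_unit y.hc₂ γ.he₂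
  hu := act_nrm γ.he₁ γ.he₂ y.hu γ.hg

end group

section points

variable (A : Type*) [CommRing A]

/-- The polynomial `d₁ d₂ N(t)` in the variables `(d₁, d₂, t₀, t₁, t₂, t₃)`, where `N(t)` is the
product of the four numbers `t₀ + t₁ √d₁ + t₂ √d₂ + t₃ √d₁ √d₂` for the four choices of the signs
of `√d₁` and `√d₂`. -/
noncomputable def disc : MvPolynomial (Fin 6) ℚ :=
  X 0 * X 1 * ((X 2 ^ 2 + X 0 * X 3 ^ 2 - X 1 * X 4 ^ 2 - X 0 * X 1 * X 5 ^ 2) ^ 2 -
    X 0 * (2 * X 2 * X 3 - 2 * X 1 * X 4 * X 5) ^ 2)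

/-- The coordinate ring of `X`: the ring `ℚ[d₁, d₂, t₀, t₁, t₂, t₃]` with `d₁ d₂ N(t)` inverted. -/
abbrev CoordRing : Type := Localization.Away disc

/-- `X(A)`, for a `ℚ`-algebra `A`: the ring homomorphisms from the coordinate ring to `A`. -/
abbrev XPoint : Type _ := CoordRing →+* A

variable {A}

/-- the coordinates `(d₁, d₂, t₀, t₁, t₂, t₃)` of a point of `X` -/
noncomputable def coord (P : XPoint A) (i : Fin 6) : A :=
  P (algebraMap (MvPolynomial (Fin 6) ℚ) CoordRing (X i))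

/-- The point `y` of `Y` lies over the point `P` of `X`: `c₁² = d₁`, `c₂² = d₂` and
`t₀ + t₁ c₁ s₁ + t₂ c₂ s₂ + t₃ c₁ c₂ s₁ s₂ = N(u)`. -/
def Over (y : YPoint A) (P : XPoint A) : Prop :=
  y.c₁ ^ 2 = coord P 0 ∧ y.c₂ ^ 2 = coord P 1 ∧
    scale y.c₁ y.c₂ ⟨⟨coord P 2, coord P 3⟩, ⟨coord P 4, coord P 5⟩⟩ = nrm y.u

end points

/-! ### adelic points, the Brauer-Manin set and the descent set -/

/-- The adelic points of `X`: a point over each `ℚ_p` and a point over `ℝ`, such that every regular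
function on `X` takes `p`-adic integral values at them for all but finitely many `p`. -/
structure AdelicPoint where
  fin : ∀ (p : ℕ) [Fact p.Prime], XPoint ℚ_[p]
  inf : XPoint ℝ
  integral : ∀ r : CoordRing, {p : ℕ | ∃ _ : Fact p.Prime, ¬ ‖fin p r‖ ≤ 1}.Finite

section brauer

/-- Brauer equivalence of algebras over a field: `M_m(A)` and `M_n(B)` are isomorphic for some
`m, n ≥ 1`. -/
def BrauerEq (K A B : Type) [Field K] [Ring A] [Ring B] [Algebra K A] [Algebra K B] : Prop :=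
  ∃ m n : ℕ, m ≠ 0 ∧ n ≠ 0 ∧
    Nonempty (Matrix (Fin m) (Fin m) A ≃ₐ[K] Matrix (Fin n) (Fin n) B)

/-- The algebras `K ⊗ D` and `B(P) = K ⊗ B`, the fibre of `B` at the point `P : CoordRing → K`, are
Brauer equivalent. -/
def AgreesAt (K : Type) [Field K] [Algebra ℚ K] (P : XPoint K) (B D : Type) [Ring B]
    [Algebra CoordRing B] [Ring D] [Algebra ℚ D] : Prop :=
  letI := P.toAlgebra
  BrauerEq K (K ⊗[ℚ] D) (K ⊗[CoordRing] B)

/-- `P` lies in the Brauer-Manin set `X(𝔸)^Br`: for every Azumaya algebra `B` over the coordinate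
ring of `X` the sum of the local invariants of the `B(P_v)` is zero.  By the exact sequence
`0 → Br ℚ → ⨁ Br ℚ_v → ℚ/ℤ → 0` this means that there is a central simple algebra `D` over `ℚ`
such that `ℚ_v ⊗ D` is Brauer equivalent to `B(P_v)` for all places `v`. -/
def InBrauerManinSet (P : AdelicPoint) : Prop :=
  ∀ (B : Type) [Ring B] [Algebra CoordRing B] [IsAzumaya CoordRing B],
    ∃ (D : Type) (_ : Ring D) (_ : Algebra ℚ D),
      (Algebra.IsCentral ℚ D ∧ IsSimpleRing D ∧ Module.Finite ℚ D) ∧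
      (∀ (p : ℕ) [Fact p.Prime], AgreesAt ℚ_[p] (P.fin p) B D) ∧ AgreesAt ℝ P.inf B D

end brauer

section descent

/-- the absolute Galois group of the field `K` -/
abbrev GalGrp (K : Type) [Field K] : Type := AlgebraicClosure K ≃ₐ[K] AlgebraicClosure K

/-- A continuous cocycle of the absolute Galois group of `ℚ` with values in `G(ℚ̄)` with the
discrete topology. -/
structure Cocycle where
  toFun : GalGrp ℚ → GPoint (AlgebraicClosure ℚ)
  cont : IsLocallyConstant toFun
  map_mul : ∀ s t : GalGrp ℚ,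
    toFun (s * t) = toFun s * (toFun t).map (s : AlgebraicClosure ℚ →+* AlgebraicClosure ℚ)

/-- The class `f(P)` in `H¹(K, G)` of the torsor `f : Y → X` at the `K`-point `P` is the restriction
to `K` of the class of the cocycle `a` of `ℚ`: for an embedding `ι` of `ℚ̄` in `K̄` there is a point
`y` of `Y` over `P` with values in `K̄` such that `s(y) = y · a(s')` for every `s` in the absolute
Galois group of `K`, where `s'` is the automorphism of `ℚ̄` induced by `s`. -/
def ClassAgrees (K : Type) [Field K] (P : XPoint K) (a : Cocycle) : Prop :=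
  ∃ (ι : AlgebraicClosure ℚ →+* AlgebraicClosure K) (y : YPoint (AlgebraicClosure K)),
    Over y ((algebraMap K (AlgebraicClosure K)).comp P) ∧
    ∀ (s : GalGrp K) (s' : GalGrp ℚ), (∀ x, ι (s' x) = s (ι x)) →
      y.map (s : AlgebraicClosure K →+* AlgebraicClosure K) = y.act ((a.toFun s').map ι)

/-- `P` lies in the descent set `X(𝔸)^f` of the torsor `f : Y → X`: the family of the classes
`f(P_v)` comes from a class in `H¹(ℚ, G)`. -/
def InDescentSet (P : AdelicPoint) : Prop :=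
  ∃ a : Cocycle, (∀ (p : ℕ) [Fact p.Prime], ClassAgrees ℚ_[p] (P.fin p) a) ∧
    ClassAgrees ℝ P.inf a

end descent

end Pool.Agent.W620.BM
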