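import Mathlib

/-!
# The rings `A[s₁, s₂]` and `A[s₁, s₂, i]`
-/

namespace Pool.Agent.W620.BM

section rings

variable (A : Type*) [CommRing A]

/-- The ring `A[s₁, s₂] / (s₁² - 1, s₂² - 1)`.  Its elements are the
`⟨⟨t₀, t₁⟩, ⟨t₂, t₃⟩⟩ = t₀ + t₁ s₁ + t₂ s₂ + t₃ s₁ s₂`. -/
abbrev LL : Type _ := QuadraticAlgebra (QuadraticAlgebra A 1 0) 1 0

/-- The ring `A[s₁, s₂, i] / (s₁² - 1, s₂² - 1, i² + 1)`.  Its elements are the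
`⟨z, w⟩ = z + w i` with `z`, `w` in `A[s₁, s₂]`. -/
abbrev MM : Type _ := QuadraticAlgebra (LL A) (-1) 0

variable {A}

/-- The norm `z + w i ↦ z² + w²` from `A[s₁, s₂, i]` to `A[s₁, s₂]`. -/
def nrm (u : MM A) : LL A := u.re ^ 2 + u.im ^ 2

/-- The map `s₁ ↦ c₁ s₁`, `s₂ ↦ c₂ s₂`, which sends `t₀ + t₁ s₁ + t₂ s₂ + t₃ s₁ s₂` to
`t₀ + c₁ t₁ s₁ + c₂ t₂ s₂ + c₁ c₂ t₃ s₁ s₂`. -/
def scale (c₁ c₂ : A) (t : LL A) : LL A :=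
  ⟨⟨t.re.re, c₁ * t.re.im⟩, ⟨c₂ * t.im.re, c₁ * c₂ * t.im.im⟩⟩

/-- The same map on `A[s₁, s₂, i]`. -/
def scaleM (c₁ c₂ : A) (u : MM A) : MM A := ⟨scale c₁ c₂ u.re, scale c₁ c₂ u.im⟩

/-- The conjugation `z + w i ↦ z - w i` of `A[s₁, s₂, i]`. -/
def cj (u : MM A) : MM A := ⟨u.re, -u.im⟩

variable {B : Type*} [CommRing B]

/-- functoriality of `A[s₁, s₂]` -/
def mapL (f : A →+* B) (t : LL A) : LL B := ⟨⟨f t.re.re, f t.re.im⟩, ⟨f t.im.re, f t.im.im⟩⟩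

/-- functoriality of `A[s₁, s₂, i]` -/
def mapM (f : A →+* B) (u : MM A) : MM B := ⟨mapL f u.re, mapL f u.im⟩

end rings

end Pool.Agent.W620.BM
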