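import Pool.Agent.W620.BM.Lem0

/-!
# The points of the group `G` and of the variety `Y`
-/

namespace Pool.Agent.W620.BM

section points

variable (A : Type*) [CommRing A]

/-- The group `G(A)`: triples `(e₁, e₂, g)` with `e₁² = e₂² = 1` and `g` in `A[s₁, s₂, i]` of
norm one. -/
@[ext] structure GPoint where
  e₁ : A
  e₂ : A
  g : MM A
  he₁ : e₁ ^ 2 = 1
  he₂ : e₂ ^ 2 = 1
  hg : nrm g = 1

/-- `Y(A)`: triples `(c₁, c₂, u)` with `c₁`, `c₂` units of `A` and `u` in `A[s₁, s₂, i]` whose norm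
is a unit. -/
@[ext] structure YPoint where
  c₁ : A
  c₂ : A
  u : MM A
  hc₁ : IsUnit c₁
  hc₂ : IsUnit c₂
  hu : IsUnit (nrm u)

end points

section group

variable {A : Type*} [CommRing A] {B : Type*} [CommRing B]

/-- The group law `(e₁, e₂, g) (e₁', e₂', g') = (e₁ e₁', e₂ e₂', ψ(g) g')` with `ψ` the automorphism
`s₁ ↦ e₁' s₁`, `s₂ ↦ e₂' s₂` of `A[s₁, s₂, i]`. -/
instance : Mul (GPoint A) where
  mul γ γ' :=
    { e₁ := γ.e₁ * γ'.e₁
      e₂ := γ.e₂ * γ'.e₂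
      g := scaleM γ'.e₁ γ'.e₂ γ.g * γ'.g
      he₁ := by rw [mul_pow, γ.he₁, γ'.he₁, one_mul]
      he₂ := by rw [mul_pow, γ.he₂, γ'.he₂, one_mul]
      hg := by rw [nrm_mul, nrm_scaleM γ'.he₁ γ'.he₂, γ.hg, γ'.hg, scale_one, one_mul] }

instance : One (GPoint A) where
  one := ⟨1, 1, 1, one_pow 2, one_pow 2, nrm_one⟩

instance : Inv (GPoint A) where
  inv γ :=
    { e₁ := γ.e₁
      e₂ := γ.e₂
      g := scaleM γ.e₁ γ.e₂ (cj γ.g)
      he₁ := γ.he₁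
      he₂ := γ.he₂
      hg := by rw [nrm_scaleM γ.he₁ γ.he₂, nrm_cj, γ.hg, scale_one] }

end group

end Pool.Agent.W620.BM
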