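import Pool.Agent.W620.BM.Def

/-!
# The homomorphism from `G` to `μ₂ × μ₂`
-/

namespace Pool.Agent.W620.BM

variable (A : Type*) [CommRing A]

/-- The group `μ₂(A)`. -/
def Mu2 : Type _ := rootsOfUnity 2 A

instance : CommGroup (Mu2 A) := (inferInstance : CommGroup (rootsOfUnity 2 A))

/-- The group `SO₂(A)`. -/
def SO2 : Type _ := Matrix.specialOrthogonalGroup (Fin 2) A

instance : Group (SO2 A) :=
  (inferInstance : Group (Matrix.specialOrthogonalGroup (Fin 2) A))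

/-- The homomorphism `G(A) → μ₂(A) × μ₂(A)`, `(e₁, e₂, g) ↦ (e₁, e₂)`. -/
def toMu2 : GPoint A →* Mu2 A × Mu2 A where
  toFun γ := (rootsOfUnity.mkOfPowEq γ.e₁ γ.he₁, rootsOfUnity.mkOfPowEq γ.e₂ γ.he₂)
  map_one' := Prod.ext (Subtype.ext (Units.ext rfl)) (Subtype.ext (Units.ext rfl))
  map_mul' _ _ := Prod.ext (Subtype.ext (Units.ext rfl)) (Subtype.ext (Units.ext rfl))

variable {A}

/-- For `q = 1/4`: the element of `A[s₁, s₂]` whose values at `(s₁, s₂) = (1, 1)`, `(-1, 1)`,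
`(1, -1)`, `(-1, -1)` are `f 0`, `f 1`, `f 2`, `f 3`. -/
def un (q : A) (f : Fin 4 → A) : LL A :=
  ⟨⟨q * (f 0 + f 1 + f 2 + f 3), q * (f 0 - f 1 + f 2 - f 3)⟩,
    ⟨q * (f 0 + f 1 - f 2 - f 3), q * (f 0 - f 1 - f 2 + f 3)⟩⟩

end Pool.Agent.W620.BM
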