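import Pool.Agent.W620.BM.Lem2

/-!
# The homomorphism `SO₂⁴ → G`
-/

namespace Pool.Agent.W620.BM

/-- The homomorphism `SO₂(A)⁴ → G(A)`, `M ↦ (1, 1, z + w i)`, where `z`, `w` are the elements of
`A[s₁, s₂]` such that `z + w i` takes the values `z_j + w_j i`, `j = 0, …, 3`, at the four sign
vectors `(s₁, s₂)`, with `(z_j, w_j)` the first row of `M_j`. -/
def fromSO (A : Type*) [CommRing A] [Algebra ℚ A] : (Fin 4 → SO2 A) →* GPoint A where
  toFun M := ⟨1, 1, ⟨un (algebraMap ℚ A (1 / 4)) (fun i => (M i).1 0 0),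
    un (algebraMap ℚ A (1 / 4)) (fun i => (M i).1 0 1)⟩, one_pow 2, one_pow 2, fromSO_norm M⟩
  map_one' := GPoint.ext rfl rfl fromSO_one
  map_mul' M N := GPoint.ext (one_mul 1).symm (one_mul 1).symm (fromSO_mul M N)

end Pool.Agent.W620.BM
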