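import Mathlib

/-!
# Galois descent for semilinear actions, weak form
-/

namespace Pool.Agent.W620.BM

/-- a semilinear action with a nonzero vector whose stabiliser is open has a nonzero fixed vector -/
theorem exists_invariant {k A V : Type*} [Field k] [Field A] [Algebra k A] [Normal k A]
    [AddCommGroup V] [Module A V] (T : (A ≃ₐ[k] A) → V → V)
    (hadd : ∀ s v w, T s (v + w) = T s v + T s w)
    (hsmul : ∀ s (c : A) v, T s (c • v) = s c • T s v)
    (hmul : ∀ s t v, T (s * t) v = T s (T t v)) (v : V) (hv : v ≠ 0)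
    (E : IntermediateField k A) [FiniteDimensional k E]
    (hE : ∀ s ∈ E.fixingSubgroup, T s v = v) :
    ∃ w : V, w ≠ 0 ∧ ∀ s, T s w = w := by
  classical
  set L : IntermediateField k A := IntermediateField.normalClosure k E A with hL
  have hEL : E ≤ L := IntermediateField.le_normalClosure E
  have : Normal k L := inferInstance
  have : FiniteDimensional k L := inferInstance
  set res : (A ≃ₐ[k] A) →* (L ≃ₐ[k] L) := AlgEquiv.restrictNormalHom L with hres
  have hresapp : ∀ (σ : A ≃ₐ[k] A) (x : L), ((res σ x : L) : A) = σ x := fun σ x =>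
    AlgEquiv.restrictNormal_commutes σ L x
  have hsurj : Function.Surjective res := AlgEquiv.restrictNormalHom_surjective A
  choose lft hlres using hsurj
  have : Finite (L ≃ₐ[k] L) := inferInstance
  have : Fintype (L ≃ₐ[k] L) := Fintype.ofFinite _
  -- two lifts act in the same way on `v`
  have hsame : ∀ σ σ' : A ≃ₐ[k] A, res σ = res σ' → T σ v = T σ' v := by
    intro σ σ' h
    have h1 : σ'⁻¹ * σ ∈ E.fixingSubgroup := by
      rw [IntermediateField.mem_fixingSubgroup_iff]
      intro x hx
      have h2 : ((res σ ⟨x, hEL hx⟩ : L) : A) = ((res σ' ⟨x, hEL hx⟩ : L) : A) := by rw [h]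
      rw [hresapp, hresapp] at h2
      simp only at h2
      change σ'⁻¹ (σ x) = x
      rw [h2]
      exact AlgEquiv.symm_apply_apply σ' x
    have h3 := hE _ h1
    have h4 : σ = σ' * (σ'⁻¹ * σ) := by group
    rw [h4, hmul, h3]
  have hT0 : ∀ s, T s 0 = 0 := by
    intro s
    have h1 := hadd s 0 0
    rw [add_zero] at h1
    exact left_eq_add.1 h1
  have hsum : ∀ s {ι : Type _} (S : Finset ι) (f : ι → V), T s (∑ i ∈ S, f i) = ∑ i ∈ S, T s (f i) := by
    intro s ι S f
    induction S using Finset.induction_on with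
    | empty => simp [hT0]
    | insert a S ha ih => rw [Finset.sum_insert ha, Finset.sum_insert ha, hadd, ih]
  have h1v : T 1 v = v := hE 1 (one_mem _)
  have hl1 : T (lft 1) v = v := by
    rw [hsame (lft 1) 1 (by rw [hlres, map_one]), h1v]
  -- a linear functional
  obtain ⟨ℓ, hℓ⟩ : ∃ ℓ : Module.Dual A V, ℓ v ≠ 0 := by
    by_contra hcon
    push Not at hcon
    exact hv ((Module.forall_dual_apply_eq_zero_iff A v).1 hcon)
  -- independence of characters
  have hex : ∃ x : L, ∑ τ : L ≃ₐ[k] L, ℓ (T (lft τ) v) * ((τ x : L) : A) ≠ 0 := by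
    by_contra hcon
    push Not at hcon
    have hli := linearIndependent_monoidHom L A
    set f : (L ≃ₐ[k] L) → (L →* A) := fun τ =>
      ((algebraMap L A : L →+* A) : L →* A).comp ((τ : L ≃ₐ[k] L) : L →* L) with hf
    have hinj : Function.Injective f := by
      intro τ τ' h
      apply AlgEquiv.ext
      intro x
      have := DFunLike.congr_fun h x
      exact Subtype.ext this
    have hli' := hli.comp f hinj
    rw [Fintype.linearIndependent_iff] at hli'
    have h1 := hli' (fun τ => ℓ (T (lft τ) v)) (by
      funext x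
      simp only [Finset.sum_apply, Pi.smul_apply, smul_eq_mul, Function.comp_apply, Pi.zero_apply]
      exact hcon x)
    have h2 := h1 1
    rw [hl1] at h2
    exact hℓ h2
  obtain ⟨x, hx⟩ := hex
  refine ⟨∑ τ : L ≃ₐ[k] L, ((τ x : L) : A) • T (lft τ) v, ?_, ?_⟩
  · intro h
    apply hx
    have h1 := congrArg ℓ h
    rw [map_sum, map_zero] at h1
    rw [← h1]
    refine Finset.sum_congr rfl fun τ _ => ?_
    rw [map_smul, smul_eq_mul, mul_comm]
  · intro σ
    rw [hsum]
    have hterm : ∀ τ : L ≃ₐ[k] L, T σ (((τ x : L) : A) • T (lft τ) v) =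
        ((((res σ * τ : L ≃ₐ[k] L) x : L) : A)) • T (lft (res σ * τ)) v := by
      intro τ
      rw [hsmul]
      congr 1
      · change _ = (((res σ) (τ x) : L) : A)
        rw [hresapp]
      · rw [← hmul]
        apply hsame
        rw [map_mul, hlres, hlres]
    rw [Finset.sum_congr rfl fun τ _ => hterm τ]
    exact Fintype.sum_equiv (Equiv.mulLeft (res σ)) _ _ (fun τ => rfl)

end Pool.Agent.W620.BM
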