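import Pool.Agent.W620.BM.Def
import Pool.Agent.W620.BM.H90
import Pool.Agent.W22.BM.Sq

/-!
# The adelic point does not lie in the descent set
-/

namespace Pool.Agent.W620.BM

open QuadraticAlgebra

/-- `A[i]` -/
abbrev QI (A : Type*) [CommRing A] : Type _ := QuadraticAlgebra A (-1) 0

section algebra

variable {A : Type*} [CommRing A] {B : Type*} [CommRing B]

/-- the norm of `A[i]` -/
def nI (x : QI A) : A := x.re ^ 2 + x.im ^ 2

/-- functoriality of `A[i]` -/
def mapQ (f : A →+* B) (x : QI A) : QI B := ⟨f x.re, f x.im⟩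

/-- the conjugation of `A[i]` -/
def cQ (x : QI A) : QI A := ⟨x.re, -x.im⟩

/-- the homomorphism `s₁ ↦ 1`, `s₂ ↦ 1` -/
def augL (t : LL A) : A := t.re.re + t.re.im + t.im.re + t.im.im

/-- the homomorphism `s₁ ↦ 1`, `s₂ ↦ 1` -/
def aug (u : MM A) : QI A := ⟨augL u.re, augL u.im⟩

lemma augL_add (t t' : LL A) : augL (t + t') = augL t + augL t' := by
  simp only [augL, re_add, im_add]; ring

lemma augL_neg (t : LL A) : augL (-t) = -augL t := by
  simp only [augL, re_neg, im_neg]; ring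

lemma augL_mul (t t' : LL A) : augL (t * t') = augL t * augL t' := by
  simp only [augL, re_mul, im_mul, re_add, im_add, re_one, im_one, re_zero, im_zero]; ring

lemma augL_one : augL (1 : LL A) = 1 := by
  simp only [augL, re_one, im_one, re_zero, im_zero]; ring

lemma augL_zero : augL (0 : LL A) = 0 := by
  simp only [augL, re_zero, im_zero]; ring

lemma aug_mul (u v : MM A) : aug (u * v) = aug u * aug v := by
  apply QuadraticAlgebra.ext
  · simp only [aug, re_mul, neg_mul, one_mul, augL_add, augL_neg, augL_mul]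
  · simp only [aug, im_mul, zero_mul, add_zero, augL_add, augL_mul]

lemma aug_one : aug (1 : MM A) = 1 := by
  apply QuadraticAlgebra.ext
  · exact augL_one
  · exact augL_zero

lemma nI_aug (u : MM A) : nI (aug u) = augL (nrm u) := by
  simp only [nI, aug, nrm, augL_add, sq, augL_mul]

lemma augL_mapL (f : A →+* B) (t : LL A) : augL (mapL f t) = f (augL t) := by
  simp only [augL, mapL, map_add]

lemma aug_mapM (f : A →+* B) (u : MM A) : aug (mapM f u) = mapQ f (aug u) := by
  apply QuadraticAlgebra.ext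
  · exact augL_mapL f u.re
  · exact augL_mapL f u.im

lemma nI_mul (x y : QI A) : nI (x * y) = nI x * nI y := by
  simp only [nI, re_mul, im_mul]; ring

lemma nI_one : nI (1 : QI A) = 1 := by
  simp only [nI, re_one, im_one]; ring

lemma nI_cQ (x : QI A) : nI (cQ x) = nI x := by
  simp only [nI, cQ]; ring

lemma nI_mapQ (f : A →+* B) (x : QI A) : nI (mapQ f x) = f (nI x) := by
  simp only [nI, mapQ, map_add, map_pow]

lemma mapQ_mul (f : A →+* B) (x y : QI A) : mapQ f (x * y) = mapQ f x * mapQ f y := by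
  apply QuadraticAlgebra.ext <;> simp [mapQ]

lemma mapQ_one (f : A →+* B) : mapQ f (1 : QI A) = 1 := by
  apply QuadraticAlgebra.ext <;> simp [mapQ, re_one, im_one]

lemma cQ_mul (x y : QI A) : cQ (x * y) = cQ x * cQ y := by
  apply QuadraticAlgebra.ext
  · simp only [cQ, re_mul]; ring
  · simp only [cQ, im_mul]; ring

lemma cQ_one : cQ (1 : QI A) = 1 := by
  apply QuadraticAlgebra.ext <;> simp [cQ, re_one, im_one]

lemma mapQ_cQ (f : A →+* B) (x : QI A) : mapQ f (cQ x) = cQ (mapQ f x) := by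
  apply QuadraticAlgebra.ext <;> simp [mapQ, cQ]

lemma mul_cQ (x : QI A) : x * cQ x = ⟨nI x, 0⟩ := by
  apply QuadraticAlgebra.ext
  · simp only [nI, cQ, re_mul]; ring
  · simp only [cQ, im_mul]; ring

lemma mul_cQ_one {x : QI A} (h : nI x = 1) : x * cQ x = 1 := by
  rw [mul_cQ, h]
  rfl

lemma mapQ_comp {C : Type*} [CommRing C] (g : B →+* C) (f : A →+* B) (x : QI A) :
    mapQ g (mapQ f x) = mapQ (g.comp f) x := rfl

lemma mapQ_add (f : A →+* B) (x y : QI A) : mapQ f (x + y) = mapQ f x + mapQ f y := by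
  apply QuadraticAlgebra.ext <;> simp [mapQ]

lemma mapQ_smul (f : A →+* B) (c : A) (x : QI A) : mapQ f (c • x) = f c • mapQ f x := by
  apply QuadraticAlgebra.ext <;> simp [mapQ]

end algebra

section galois

variable {K : Type} [Field K] [CharZero K]

/-- elements fixed by the absolute Galois group -/
lemma fixed_mem {x : AlgebraicClosure K} (hx : ∀ s : GalGrp K, s x = x) :
    ∃ q : K, algebraMap K (AlgebraicClosure K) q = x := by
  have h1 : x ∈ (⊥ : IntermediateField K (AlgebraicClosure K)) := by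
    rw [← InfiniteGalois.fixedField_bot, IntermediateField.mem_fixedField_iff]
    exact fun s _ => hx s
  exact IntermediateField.mem_bot.1 h1

lemma exists_restrict_gen {k L : Type} [Field k] [Field L] [Algebra k L]
    (ι : AlgebraicClosure k →+* AlgebraicClosure L)
    (hι : ∀ c : k, ι (algebraMap k (AlgebraicClosure k) c) =
      algebraMap L (AlgebraicClosure L) (algebraMap k L c)) (s : GalGrp L) :
    ∃ s' : GalGrp k, ∀ x, ι (s' x) = s (ι x) := by
  let _ : Algebra (AlgebraicClosure k) (AlgebraicClosure L) := ι.toAlgebra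
  have : IsScalarTower k (AlgebraicClosure k) (AlgebraicClosure L) :=
    IsScalarTower.of_algebraMap_eq' (by
      ext c
      rw [IsScalarTower.algebraMap_apply k L (AlgebraicClosure L)]
      exact (hι c).symm)
  have : Normal k (AlgebraicClosure k) := IsAlgClosure.normal k _
  let χ : AlgebraicClosure L ≃ₐ[k] AlgebraicClosure L := s.restrictScalars k
  refine ⟨χ.restrictNormal (AlgebraicClosure k), fun x => ?_⟩
  exact AlgEquiv.restrictNormal_commutes χ (AlgebraicClosure k) x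

/-- the automorphism of `ℚ̄` induced by an automorphism of `K̄` -/
lemma exists_restrict (ι : AlgebraicClosure ℚ →+* AlgebraicClosure K) (s : GalGrp K) :
    ∃ s' : GalGrp ℚ, ∀ x, ι (s' x) = s (ι x) := by
  refine exists_restrict_gen (k := ℚ) (L := K) ι (fun c => ?_) s
  rw [eq_ratCast, eq_ratCast, map_ratCast, map_ratCast]

/-- descent of a Galois-invariant element -/
lemma local_descend (ι : AlgebraicClosure ℚ →+* AlgebraicClosure K) (x : AlgebraicClosure ℚ)
    (hfix : ∀ (s : GalGrp K) (s' : GalGrp ℚ), (∀ x, ι (s' x) = s (ι x)) → s' x = x) :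
    ∃ q : K, algebraMap K (AlgebraicClosure K) q = ι x := by
  refine fixed_mem fun s => ?_
  obtain ⟨s', hs'⟩ := exists_restrict ι s
  rw [← hs', hfix s s' hs']

/-- descent of a square root -/
lemma local_sq (ι : AlgebraicClosure ℚ →+* AlgebraicClosure K) (w : AlgebraicClosure ℚ) (δ : ℚ)
    (hδ : (δ : AlgebraicClosure ℚ) = w ^ 2)
    (hfix : ∀ (s : GalGrp K) (s' : GalGrp ℚ), (∀ x, ι (s' x) = s (ι x)) → s' w = w) :
    ∃ q : K, q ^ 2 = (δ : K) := by
  obtain ⟨q, hq⟩ := local_descend ι w hfix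
  refine ⟨q, (algebraMap K (AlgebraicClosure K)).injective ?_⟩
  rw [map_pow, hq, ← map_pow, ← hδ, map_ratCast, map_ratCast]

end galois

section generic

variable {k : Type} [Field k] [CharZero k]

omit [CharZero k] in
lemma exists_E {S : Type*} (f : GalGrp k → S) (hf : IsLocallyConstant f) :
    ∃ E : IntermediateField k (AlgebraicClosure k), FiniteDimensional k E ∧
      ∀ s ∈ E.fixingSubgroup, f s = f 1 := by
  have h1 : {s : GalGrp k | f s = f 1} ∈ nhds (1 : GalGrp k) :=
    (hf.isOpen_fiber (f 1)).mem_nhds rfl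
  rw [krullTopology_mem_nhds_one_iff] at h1
  obtain ⟨E, hE, h⟩ := h1
  exact ⟨E, hE, fun s hs => h hs⟩

/-- a quadratic character is given by a square root -/
lemma char_gen (e : GalGrp k → AlgebraicClosure k) (hf : IsLocallyConstant e)
    (he2 : ∀ s, e s ^ 2 = 1) (hmul : ∀ s t, e (s * t) = e s * s (e t)) :
    ∃ (w : AlgebraicClosure k) (δ : k), w ≠ 0 ∧ (∀ s : GalGrp k, s w = e s * w) ∧
      algebraMap k (AlgebraicClosure k) δ = w ^ 2 := by
  have hN : Normal k (AlgebraicClosure k) := IsAlgClosure.normal k _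
  obtain ⟨E, hEf, hE⟩ := exists_E e hf
  have h1 : e 1 = 1 := by
    have h2 := hmul 1 1
    rw [mul_one, AlgEquiv.one_apply, ← sq, he2] at h2
    exact h2
  obtain ⟨w, hw0, hw⟩ := exists_invariant (k := k) (A := AlgebraicClosure k)
    (V := AlgebraicClosure k) (fun s v => e s * s v)
    (fun s v w => by rw [map_add, mul_add])
    (fun s c v => by simp only [smul_eq_mul, map_mul]; ring)
    (fun s t v => by
      change e (s * t) * s (t v) = e s * s (e t * t v)
      rw [hmul, map_mul]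
      ring) 1 one_ne_zero E
    (fun s hs => by rw [hE s hs, h1, map_one, one_mul])
  have hsw : ∀ s : GalGrp k, s w = e s * w := by
    intro s
    calc s w = e s ^ 2 * s w := by rw [he2, one_mul]
      _ = e s * (e s * s w) := by ring
      _ = e s * w := by rw [hw]
  obtain ⟨δ, hδ⟩ := fixed_mem (K := k) (x := w ^ 2) (fun s => by
    rw [map_pow, hsw, mul_pow, he2, one_mul])
  exact ⟨w, δ, hw0, hsw, hδ⟩

/-- Hilbert 90 for the torus of norm one elements -/
lemma vec_gen (hk : ¬ ∃ j : k, j ^ 2 = -1) (m : GalGrp k → QI (AlgebraicClosure k))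
    (hf : IsLocallyConstant m) (hn : ∀ s, nI (m s) = 1)
    (hmul : ∀ s t : GalGrp k, m (s * t) =
      m s * mapQ (s : AlgebraicClosure k →+* AlgebraicClosure k) (m t)) :
    ∃ (x : QI (AlgebraicClosure k)) (τ : k), τ ≠ 0 ∧
      (∀ s : GalGrp k, mapQ (s : AlgebraicClosure k →+* AlgebraicClosure k) x = x * m s) ∧
      algebraMap k (AlgebraicClosure k) τ = nI x := by
  have hN : Normal k (AlgebraicClosure k) := IsAlgClosure.normal k _
  obtain ⟨E, hEf, hE⟩ := exists_E m hf
  have hid : ∀ v : QI (AlgebraicClosure k),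
      mapQ ((1 : GalGrp k) : AlgebraicClosure k →+* AlgebraicClosure k) v = v := fun v => rfl
  have h1 : m 1 = 1 := by
    have h2 := hmul 1 1
    rw [mul_one, hid] at h2
    have h3 := congrArg (fun z => z * cQ (m 1)) h2
    simp only [mul_assoc] at h3
    rw [mul_cQ_one (hn 1), mul_one] at h3
    exact h3.symm
  obtain ⟨x, hx0, hx⟩ := exists_invariant (k := k) (A := AlgebraicClosure k)
    (V := QI (AlgebraicClosure k))
    (fun s v => mapQ (s : AlgebraicClosure k →+* AlgebraicClosure k) v * cQ (m s))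
    (fun s v w => by rw [mapQ_add, add_mul])
    (fun s c v => by
      rw [mapQ_smul, smul_mul_assoc]
      rfl)
    (fun s t v => by
      rw [hmul, cQ_mul, mapQ_mul, mapQ_cQ, mapQ_comp]
      change mapQ ((s : AlgebraicClosure k →+* AlgebraicClosure k).comp
        (t : AlgebraicClosure k →+* AlgebraicClosure k)) v * _ = _
      ring) 1 one_ne_zero E
    (fun s hs => by rw [hE s hs, h1, mapQ_one, cQ_one, mul_one])
  have hsx : ∀ s : GalGrp k, mapQ (s : AlgebraicClosure k →+* AlgebraicClosure k) x = x * m s := by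
    intro s
    have h2 := hx s
    calc mapQ (s : AlgebraicClosure k →+* AlgebraicClosure k) x
        = mapQ (s : AlgebraicClosure k →+* AlgebraicClosure k) x * (m s * cQ (m s)) := by
          rw [mul_cQ_one (hn s), mul_one]
      _ = (mapQ (s : AlgebraicClosure k →+* AlgebraicClosure k) x * cQ (m s)) * m s := by ring
      _ = x * m s := by rw [h2]
  obtain ⟨τ, hτ⟩ := fixed_mem (K := k) (x := nI x) (fun s => by
    have h2 := congrArg nI (hsx s)
    rw [nI_mapQ, nI_mul, hn, mul_one] at h2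
    exact h2)
  refine ⟨x, τ, ?_, hsx, hτ⟩
  rintro rfl
  rw [map_zero] at hτ
  apply hk
  obtain ⟨j₀, hj₀⟩ := IsAlgClosed.exists_pow_nat_eq (-1 : AlgebraicClosure k) two_pos
  have hfac : (x.re - j₀ * x.im) * (x.re + j₀ * x.im) = 0 := by
    have h2 : (x.re - j₀ * x.im) * (x.re + j₀ * x.im) = nI x := by
      simp only [nI]
      linear_combination (-(x.im ^ 2)) * hj₀
    rw [h2, ← hτ]
  obtain ⟨j, hj, hre⟩ : ∃ j : AlgebraicClosure k, j ^ 2 = -1 ∧ x.re = j * x.im := by
    rcases mul_eq_zero.1 hfac with h | h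
    · exact ⟨j₀, hj₀, sub_eq_zero.1 h⟩
    · refine ⟨-j₀, by rw [neg_sq, hj₀], ?_⟩
      rw [neg_mul]
      exact eq_neg_of_add_eq_zero_left h
  have him : x.im ≠ 0 := by
    intro h
    apply hx0
    apply QuadraticAlgebra.ext
    · rw [hre, h, mul_zero, re_zero]
    · rw [h, im_zero]
  have hfix : ∀ s : GalGrp k, s j = j := by
    intro s
    have h2 := congrArg QuadraticAlgebra.re (hsx s)
    have h3 := congrArg QuadraticAlgebra.im (hsx s)
    have h4 : s x.re = x.re * (m s).re + -1 * x.im * (m s).im := h2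
    have h5 : s x.im = x.re * (m s).im + x.im * (m s).re + 0 * x.im * (m s).im := h3
    have h6 : s x.re = s j * s x.im := by rw [hre, map_mul]
    have h7 : s x.re = j * s x.im := by
      rw [h4, h5, hre]
      linear_combination (-(x.im * (m s).im)) * hj
    have h8 : s x.im ≠ 0 := by
      intro h
      exact him ((map_eq_zero_iff _ s.injective).1 h)
    exact mul_right_cancel₀ h8 (h6.symm.trans h7)
  obtain ⟨q, hq⟩ := fixed_mem hfix
  refine ⟨q, (algebraMap k (AlgebraicClosure k)).injective ?_⟩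
  rw [map_pow, hq, hj, map_neg, map_one]

end generic

section main

lemma GPoint.map_e₁ {A B : Type*} [CommRing A] [CommRing B] (f : A →+* B) (γ : GPoint A) :
    (γ.map f).e₁ = f γ.e₁ := rfl
lemma GPoint.map_e₂ {A B : Type*} [CommRing A] [CommRing B] (f : A →+* B) (γ : GPoint A) :
    (γ.map f).e₂ = f γ.e₂ := rfl
lemma GPoint.map_g {A B : Type*} [CommRing A] [CommRing B] (f : A →+* B) (γ : GPoint A) :
    (γ.map f).g = mapM f γ.g := rfl

/-- the value at a place -/
lemma local_main {K : Type} [Field K] [CharZero K] (a : Cocycle) (he₁ : ∀ s, (a.toFun s).e₁ = 1)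
    (he₂ : ∀ s, (a.toFun s).e₂ = 1) (x : QI (AlgebraicClosure ℚ))
    (hx : ∀ s : GalGrp ℚ, mapQ (s : AlgebraicClosure ℚ →+* AlgebraicClosure ℚ) x =
      x * aug (a.toFun s).g) (τ : ℚ) (hτ0 : τ ≠ 0) (hτ : (τ : AlgebraicClosure ℚ) = nI x)
    (P : XPoint K) (η : K) (h2 : coord P 2 = η) (h3 : coord P 3 = 0) (h4 : coord P 4 = 0)
    (h5 : coord P 5 = 0) (hP : ClassAgrees K P a) :
    ∃ q₀ q₁ : K, (τ : K) * (q₀ ^ 2 + q₁ ^ 2) = η := by
  obtain ⟨ι, y, hover, hy⟩ := hP
  have hτK : (τ : K) ≠ 0 := by exact_mod_cast hτ0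
  have hc : ∀ i, coord ((algebraMap K (AlgebraicClosure K)).comp P) i =
      algebraMap K (AlgebraicClosure K) (coord P i) := fun i => rfl
  -- the norm
  have hv : nI (aug y.u) = algebraMap K (AlgebraicClosure K) η := by
    rw [nI_aug, ← hover.2.2, hc, hc, hc, hc, h2, h3, h4, h5]
    simp [scale, augL]
  have hvs : ∀ (s : GalGrp K) (s' : GalGrp ℚ), (∀ x, ι (s' x) = s (ι x)) →
      mapQ (s : AlgebraicClosure K →+* AlgebraicClosure K) (aug y.u) =
        aug y.u * mapQ ι (aug (a.toFun s').g) := by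
    intro s s' hs
    have h6 := congrArg YPoint.u (hy s s' hs)
    have h7 : mapM (s : AlgebraicClosure K →+* AlgebraicClosure K) y.u =
        scaleM (ι (a.toFun s').e₁) (ι (a.toFun s').e₂) y.u * mapM ι (a.toFun s').g := h6
    rw [he₁, he₂, map_one, one_scaleM] at h7
    rw [← aug_mapM, h7, aug_mul, aug_mapM]
  have hxs : ∀ (s : GalGrp K) (s' : GalGrp ℚ), (∀ x, ι (s' x) = s (ι x)) →
      mapQ (s : AlgebraicClosure K →+* AlgebraicClosure K) (mapQ ι x) =
        mapQ ι x * mapQ ι (aug (a.toFun s').g) := by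
    intro s s' hs
    have h6 : mapQ (s : AlgebraicClosure K →+* AlgebraicClosure K) (mapQ ι x) =
        mapQ ι (mapQ (s' : AlgebraicClosure ℚ →+* AlgebraicClosure ℚ) x) := by
      apply QuadraticAlgebra.ext
      · exact (hs _).symm
      · exact (hs _).symm
    rw [h6, hx, mapQ_mul]
  set z : QI (AlgebraicClosure K) := aug y.u * cQ (mapQ ι x) with hz
  have hzs : ∀ s : GalGrp K, mapQ (s : AlgebraicClosure K →+* AlgebraicClosure K) z = z := by
    intro s
    obtain ⟨s', hs'⟩ := exists_restrict ι s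
    have hM : nI (mapQ ι (aug (a.toFun s').g)) = 1 := by
      rw [nI_mapQ, nI_aug, (a.toFun s').hg, augL_one, map_one]
    rw [hz, mapQ_mul, mapQ_cQ, hvs s s' hs', hxs s s' hs', cQ_mul]
    calc aug y.u * mapQ ι (aug (a.toFun s').g) * (cQ (mapQ ι x) * cQ (mapQ ι (aug (a.toFun s').g)))
        = aug y.u * cQ (mapQ ι x) *
          (mapQ ι (aug (a.toFun s').g) * cQ (mapQ ι (aug (a.toFun s').g))) := by ring
      _ = aug y.u * cQ (mapQ ι x) := by rw [mul_cQ_one hM, mul_one]
  obtain ⟨q₀, hq₀⟩ := fixed_mem (x := z.re) (fun s => congrArg QuadraticAlgebra.re (hzs s))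
  obtain ⟨q₁, hq₁⟩ := fixed_mem (x := z.im) (fun s => congrArg QuadraticAlgebra.im (hzs s))
  have hnz : q₀ ^ 2 + q₁ ^ 2 = η * (τ : K) := by
    apply (algebraMap K (AlgebraicClosure K)).injective
    rw [map_add, map_pow, map_pow, hq₀, hq₁, map_mul, map_ratCast]
    have h6 : z.re ^ 2 + z.im ^ 2 = nI z := rfl
    rw [h6, hz, nI_mul, nI_cQ, nI_mapQ, hv, ← hτ, map_ratCast]
  refine ⟨q₀ / τ, q₁ / τ, ?_⟩
  rw [div_pow, div_pow, ← add_div, hnz]
  field_simp

/-- a quadratic character which is trivial locally everywhere is trivial -/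
lemma char_trivial (e : GalGrp ℚ → AlgebraicClosure ℚ) (hf : IsLocallyConstant e)
    (he2 : ∀ s, e s ^ 2 = 1) (hmul : ∀ s t : GalGrp ℚ, e (s * t) = e s * s (e t))
    (hp : ∀ (p : ℕ) [Fact p.Prime], ∃ ι : AlgebraicClosure ℚ →+* AlgebraicClosure ℚ_[p],
      ∀ (s : GalGrp ℚ_[p]) (s' : GalGrp ℚ), (∀ x, ι (s' x) = s (ι x)) → e s' = 1)
    (hr : ∃ ι : AlgebraicClosure ℚ →+* AlgebraicClosure ℝ,
      ∀ (s : GalGrp ℝ) (s' : GalGrp ℚ), (∀ x, ι (s' x) = s (ι x)) → e s' = 1) (s : GalGrp ℚ) :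
    e s = 1 := by
  obtain ⟨w, δ, hw0, hsw, hδ⟩ := char_gen e hf he2 hmul
  rw [eq_ratCast] at hδ
  have hδ0 : δ ≠ 0 := by
    rintro rfl
    rw [Rat.cast_zero] at hδ
    exact pow_ne_zero 2 hw0 hδ.symm
  have hpos : 0 < δ := by
    obtain ⟨ι, hι⟩ := hr
    obtain ⟨q, hq⟩ := local_sq ι w δ hδ (fun s s' h => by rw [hsw, hι s s' h, one_mul])
    have h1 : (0 : ℝ) ≤ (δ : ℝ) := by rw [← hq]; positivity
    have h2 : (0 : ℚ) ≤ δ := by exact_mod_cast h1
    exact lt_of_le_of_ne h2 (Ne.symm hδ0)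
  obtain ⟨g, hg⟩ := Pool.Agent.W22.BM.gsq δ hpos (by
    intro p hpp
    obtain ⟨ι, hι⟩ := hp p
    obtain ⟨q, hq⟩ := local_sq ι w δ hδ (fun s s' h => by rw [hsw, hι s s' h, one_mul])
    have hδ' : (δ : ℚ_[p]) ≠ 0 := by exact_mod_cast hδ0
    refine ⟨q⁻¹, ?_⟩
    rw [inv_pow, hq, inv_mul_cancel₀ hδ'])
  have h1 : w ^ 2 = (g : AlgebraicClosure ℚ) ^ 2 := by
    rw [← hδ, ← hg, Rat.cast_pow]
  have h2 : s w = w := by
    rcases sq_eq_sq_iff_eq_or_eq_neg.1 h1 with h | h
    · rw [h, map_ratCast]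
    · rw [h, map_neg, map_ratCast]
  have h3 : e s * w = 1 * w := by rw [← hsw, h2, one_mul]
  exact mul_right_cancel₀ hw0 h3

lemma pm_fixed {K : Type} [Field K] {c : AlgebraicClosure K} (hc : c ^ 2 = 1) (s : GalGrp K) :
    s c = c := by
  have h1 : (c - 1) * (c + 1) = 0 := by linear_combination hc
  rcases mul_eq_zero.1 h1 with h | h
  · rw [sub_eq_zero.1 h, map_one]
  · rw [eq_neg_of_add_eq_zero_left h, map_neg, map_one]

/-- local triviality of the characters -/
lemma local_e {K : Type} [Field K] (a : Cocycle) (P : XPoint K) (h0 : coord P 0 = 1)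
    (h1 : coord P 1 = 1) (hP : ClassAgrees K P a) :
    ∃ ι : AlgebraicClosure ℚ →+* AlgebraicClosure K,
      ∀ (s : GalGrp K) (s' : GalGrp ℚ), (∀ x, ι (s' x) = s (ι x)) →
        (a.toFun s').e₁ = 1 ∧ (a.toFun s').e₂ = 1 := by
  obtain ⟨ι, y, hover, hy⟩ := hP
  have hc : ∀ i, coord ((algebraMap K (AlgebraicClosure K)).comp P) i =
      algebraMap K (AlgebraicClosure K) (coord P i) := fun i => rfl
  refine ⟨ι, fun s s' hs => ⟨?_, ?_⟩⟩
  · have h2 : s y.c₁ = y.c₁ * ι (a.toFun s').e₁ := congrArg YPoint.c₁ (hy s s' hs)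
    rw [pm_fixed (by rw [hover.1, hc, h0, map_one]) s] at h2
    have h3 : ι (a.toFun s').e₁ = 1 := (mul_eq_left₀ y.hc₁.ne_zero).1 h2.symm
    exact ι.injective (by rw [h3, map_one])
  · have h2 : s y.c₂ = y.c₂ * ι (a.toFun s').e₂ := congrArg YPoint.c₂ (hy s s' hs)
    rw [pm_fixed (by rw [hover.2.1, hc, h1, map_one]) s] at h2
    have h3 : ι (a.toFun s').e₂ = 1 := (mul_eq_left₀ y.hc₂.ne_zero).1 h2.symm
    exact ι.injective (by rw [h3, map_one])

/-- the point `(1, 1, 1, 0, 0, 0)` at all primes and `(1, 1, -1, 0, 0, 0)` at the real place does not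
lie in the descent set -/
theorem not_descent (P : AdelicPoint)
    (hp : ∀ (p : ℕ) [Fact p.Prime], coord (P.fin p) = ![1, 1, 1, 0, 0, 0])
    (hr : coord P.inf = ![1, 1, -1, 0, 0, 0]) : ¬ InDescentSet P := by
  rintro ⟨a, hap, har⟩
  have he₁ : ∀ s, (a.toFun s).e₁ = 1 := by
    refine char_trivial (fun s => (a.toFun s).e₁) (a.cont.comp GPoint.e₁)
      (fun s => (a.toFun s).he₁) (fun s t => ?_) ?_ ?_
    · change (a.toFun (s * t)).e₁ = _
      rw [a.map_mul]
      rfl
    · intro p _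
      obtain ⟨ι, hι⟩ := local_e a (P.fin p) (by rw [hp]; rfl) (by rw [hp]; rfl) (hap p)
      exact ⟨ι, fun s s' h => (hι s s' h).1⟩
    · obtain ⟨ι, hι⟩ := local_e a P.inf (by rw [hr]; rfl) (by rw [hr]; rfl) har
      exact ⟨ι, fun s s' h => (hι s s' h).1⟩
  have he₂ : ∀ s, (a.toFun s).e₂ = 1 := by
    refine char_trivial (fun s => (a.toFun s).e₂) (a.cont.comp GPoint.e₂)
      (fun s => (a.toFun s).he₂) (fun s t => ?_) ?_ ?_
    · change (a.toFun (s * t)).e₂ = _
      rw [a.map_mul]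
      rfl
    · intro p _
      obtain ⟨ι, hι⟩ := local_e a (P.fin p) (by rw [hp]; rfl) (by rw [hp]; rfl) (hap p)
      exact ⟨ι, fun s s' h => (hι s s' h).2⟩
    · obtain ⟨ι, hι⟩ := local_e a P.inf (by rw [hr]; rfl) (by rw [hr]; rfl) har
      exact ⟨ι, fun s s' h => (hι s s' h).2⟩
  obtain ⟨x, τ, hτ0, hx, hτ⟩ := vec_gen (k := ℚ) (by
      rintro ⟨j, hj⟩
      have := sq_nonneg j
      rw [hj] at this
      norm_num at this) (fun s => aug (a.toFun s).g) (a.cont.comp (fun γ => aug γ.g))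
    (fun s => by rw [nI_aug, (a.toFun s).hg, augL_one])
    (fun s t => by
      have h1 : (a.toFun (s * t)).g = scaleM (s (a.toFun t).e₁) (s (a.toFun t).e₂) (a.toFun s).g *
          mapM (s : AlgebraicClosure ℚ →+* AlgebraicClosure ℚ) (a.toFun t).g := by
        rw [a.map_mul]
        rfl
      rw [h1, he₁, he₂, map_one, one_scaleM, aug_mul, aug_mapM])
  rw [eq_ratCast] at hτ
  -- the real place
  have hneg : τ < 0 := by
    obtain ⟨q₀, q₁, hq⟩ := local_main a he₁ he₂ x hx τ hτ0 hτ P.inf (-1) (by rw [hr]; rfl)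
      (by rw [hr]; rfl) (by rw [hr]; rfl) (by rw [hr]; rfl) har
    by_contra hcon
    push Not at hcon
    have h1 : (0 : ℝ) ≤ (τ : ℝ) := by exact_mod_cast hcon
    have h2 : (0 : ℝ) ≤ (τ : ℝ) * (q₀ ^ 2 + q₁ ^ 2) := by positivity
    rw [hq] at h2
    norm_num at h2
  obtain ⟨p, hpp, h⟩ := Pool.Agent.W22.BM.twosq τ hneg
  obtain ⟨q₀, q₁, hq⟩ := local_main a he₁ he₂ x hx τ hτ0 hτ (P.fin p) 1 (by rw [hp]; rfl)
    (by rw [hp]; rfl) (by rw [hp]; rfl) (by rw [hp]; rfl) (hap p)
  exact h q₀ q₁ hq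

end main

end Pool.Agent.W620.BM
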