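import Pool.Agent.W620.BM.Def0

namespace Pool.Agent.W620.BM

section lemmas

variable {A : Type*} [CommRing A] {B : Type*} [CommRing B]

lemma nrm_mul (u v : MM A) : nrm (u * v) = nrm u * nrm v := by
  simp only [nrm, QuadraticAlgebra.re_mul, QuadraticAlgebra.im_mul]
  ring

lemma nrm_one : nrm (1 : MM A) = 1 := by
  simp only [nrm, QuadraticAlgebra.re_one, QuadraticAlgebra.im_one]
  ring

lemma scale_mul {e₁ e₂ : A} (h₁ : e₁ ^ 2 = 1) (h₂ : e₂ ^ 2 = 1) (t t' : LL A) :
    scale e₁ e₂ (t * t') = scale e₁ e₂ t * scale e₁ e₂ t' := by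
  ext <;> simp only [scale, QuadraticAlgebra.re_mul, QuadraticAlgebra.im_mul,
    QuadraticAlgebra.re_add, QuadraticAlgebra.im_add, QuadraticAlgebra.re_one,
    QuadraticAlgebra.im_one, QuadraticAlgebra.re_zero, QuadraticAlgebra.im_zero]
  · linear_combination (-(t.re.im * t'.re.im)) * h₁ + (-(t.im.re * t'.im.re)) * h₂ -
      (t.im.im * t'.im.im) * (h₁ * e₂ ^ 2 + h₂)
  · linear_combination (-(e₁ * (t.im.re * t'.im.im + t.im.im * t'.im.re))) * h₂
  · linear_combination (-(e₂ * (t.re.im * t'.im.im + t.im.im * t'.re.im))) * h₁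
  · ring

lemma scale_add (c₁ c₂ : A) (t t' : LL A) :
    scale c₁ c₂ (t + t') = scale c₁ c₂ t + scale c₁ c₂ t' := by
  ext <;> simp only [scale, QuadraticAlgebra.re_add, QuadraticAlgebra.im_add] <;> ring

lemma scale_neg (c₁ c₂ : A) (t : LL A) : scale c₁ c₂ (-t) = -scale c₁ c₂ t := by
  ext <;> simp only [scale, QuadraticAlgebra.re_neg, QuadraticAlgebra.im_neg] <;> ring

lemma scale_one (c₁ c₂ : A) : scale c₁ c₂ (1 : LL A) = 1 := by
  ext <;> simp only [scale, QuadraticAlgebra.re_one, QuadraticAlgebra.im_one,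
    QuadraticAlgebra.re_zero, QuadraticAlgebra.im_zero] <;> ring

lemma scale_scale (a b c d : A) (t : LL A) :
    scale a b (scale c d t) = scale (a * c) (b * d) t := by
  ext <;> simp only [scale] <;> ring

lemma one_scale (t : LL A) : scale 1 1 t = t := by
  ext <;> simp only [scale] <;> ring

lemma scale_sq {e₁ e₂ : A} (h₁ : e₁ ^ 2 = 1) (h₂ : e₂ ^ 2 = 1) (t : LL A) :
    scale e₁ e₂ (t ^ 2) = scale e₁ e₂ t ^ 2 := by
  rw [sq, sq, scale_mul h₁ h₂]

lemma nrm_scaleM {e₁ e₂ : A} (h₁ : e₁ ^ 2 = 1) (h₂ : e₂ ^ 2 = 1) (u : MM A) :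
    nrm (scaleM e₁ e₂ u) = scale e₁ e₂ (nrm u) := by
  simp only [nrm, scaleM, scale_add, scale_sq h₁ h₂]

lemma scaleM_mul {e₁ e₂ : A} (h₁ : e₁ ^ 2 = 1) (h₂ : e₂ ^ 2 = 1) (u v : MM A) :
    scaleM e₁ e₂ (u * v) = scaleM e₁ e₂ u * scaleM e₁ e₂ v := by
  apply QuadraticAlgebra.ext
  · simp only [scaleM, QuadraticAlgebra.re_mul, neg_mul, one_mul, scale_add, scale_neg,
      scale_mul h₁ h₂]
  · simp only [scaleM, QuadraticAlgebra.im_mul, zero_mul, add_zero, scale_add,
      scale_mul h₁ h₂]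

lemma scale_zero (c₁ c₂ : A) : scale c₁ c₂ (0 : LL A) = 0 := by
  ext <;> simp [scale]

lemma scaleM_one (c₁ c₂ : A) : scaleM c₁ c₂ (1 : MM A) = 1 := by
  apply QuadraticAlgebra.ext
  · exact scale_one c₁ c₂
  · exact scale_zero c₁ c₂

lemma scaleM_scaleM (a b c d : A) (u : MM A) :
    scaleM a b (scaleM c d u) = scaleM (a * c) (b * d) u := by
  apply QuadraticAlgebra.ext
  · exact scale_scale a b c d u.re
  · exact scale_scale a b c d u.im

lemma one_scaleM (u : MM A) : scaleM 1 1 u = u := by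
  apply QuadraticAlgebra.ext
  · exact one_scale u.re
  · exact one_scale u.im

lemma nrm_cj (u : MM A) : nrm (cj u) = nrm u := by
  simp only [nrm, cj, neg_sq]

lemma mul_cj (u : MM A) : u * cj u = algebraMap (LL A) (MM A) (nrm u) := by
  apply QuadraticAlgebra.ext
  · simp only [nrm, cj, QuadraticAlgebra.re_mul, QuadraticAlgebra.algebraMap_re]
    ring
  · simp only [nrm, cj, QuadraticAlgebra.im_mul, QuadraticAlgebra.algebraMap_im]
    ring

lemma mul_cj_one {u : MM A} (h : nrm u = 1) : u * cj u = 1 := by rw [mul_cj, h, map_one]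

lemma mapL_add (f : A →+* B) (t t' : LL A) : mapL f (t + t') = mapL f t + mapL f t' := by
  ext <;> simp [mapL]

lemma mapL_neg (f : A →+* B) (t : LL A) : mapL f (-t) = -mapL f t := by
  ext <;> simp [mapL]

lemma mapL_mul (f : A →+* B) (t t' : LL A) : mapL f (t * t') = mapL f t * mapL f t' := by
  ext <;> simp [mapL]

lemma mapL_one (f : A →+* B) : mapL f (1 : LL A) = 1 := by
  ext <;> simp [mapL, QuadraticAlgebra.re_one, QuadraticAlgebra.im_one]

lemma mapL_zero (f : A →+* B) : mapL f (0 : LL A) = 0 := by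
  ext <;> simp [mapL]

lemma mapM_mul (f : A →+* B) (u v : MM A) : mapM f (u * v) = mapM f u * mapM f v := by
  apply QuadraticAlgebra.ext
  · simp only [mapM, QuadraticAlgebra.re_mul, neg_mul, one_mul, mapL_add, mapL_neg, mapL_mul]
  · simp only [mapM, QuadraticAlgebra.im_mul, zero_mul, add_zero, mapL_add, mapL_mul]

lemma mapM_one (f : A →+* B) : mapM f (1 : MM A) = 1 := by
  apply QuadraticAlgebra.ext
  · exact mapL_one f
  · exact mapL_zero f

lemma nrm_mapM (f : A →+* B) (u : MM A) : nrm (mapM f u) = mapL f (nrm u) := by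
  simp only [nrm, mapM, mapL_add, sq, mapL_mul]

lemma mapL_scale (f : A →+* B) (c₁ c₂ : A) (t : LL A) :
    mapL f (scale c₁ c₂ t) = scale (f c₁) (f c₂) (mapL f t) := by
  ext <;> simp [mapL, scale]

lemma mapM_scaleM (f : A →+* B) (c₁ c₂ : A) (u : MM A) :
    mapM f (scaleM c₁ c₂ u) = scaleM (f c₁) (f c₂) (mapM f u) := by
  apply QuadraticAlgebra.ext
  · exact mapL_scale f c₁ c₂ u.re
  · exact mapL_scale f c₁ c₂ u.im

lemma isUnit_mapL (f : A →+* B) {t : LL A} (ht : IsUnit t) : IsUnit (mapL f t) := by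
  obtain ⟨v, hv⟩ := ht.exists_right_inv
  have h1 : mapL f t * mapL f v = 1 := by rw [← mapL_mul, hv, mapL_one]
  exact IsUnit.of_mul_eq_one _ h1

end lemmas

end Pool.Agent.W620.BM
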