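import Pool.Agent.W620.BM.Def1

namespace Pool.Agent.W620.BM

variable {A : Type*} [CommRing A] {B : Type*} [CommRing B]

lemma GPoint.mul_e₁ (a b : GPoint A) : (a * b).e₁ = a.e₁ * b.e₁ := rfl
lemma GPoint.mul_e₂ (a b : GPoint A) : (a * b).e₂ = a.e₂ * b.e₂ := rfl
lemma GPoint.mul_g (a b : GPoint A) : (a * b).g = scaleM b.e₁ b.e₂ a.g * b.g := rfl
lemma GPoint.one_e₁ : (1 : GPoint A).e₁ = 1 := rfl
lemma GPoint.one_e₂ : (1 : GPoint A).e₂ = 1 := rfl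
lemma GPoint.one_g : (1 : GPoint A).g = 1 := rfl
lemma GPoint.inv_e₁ (a : GPoint A) : (a⁻¹).e₁ = a.e₁ := rfl
lemma GPoint.inv_e₂ (a : GPoint A) : (a⁻¹).e₂ = a.e₂ := rfl
lemma GPoint.inv_g (a : GPoint A) : (a⁻¹).g = scaleM a.e₁ a.e₂ (cj a.g) := rfl

lemma GPoint.mul_assoc' (a b c : GPoint A) : a * b * c = a * (b * c) := by
  apply GPoint.ext
  · rw [mul_e₁, mul_e₁, mul_e₁, mul_e₁, mul_assoc]
  · rw [mul_e₂, mul_e₂, mul_e₂, mul_e₂, mul_assoc]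
  · rw [mul_g, mul_g, mul_g, mul_g, mul_e₁, mul_e₂, scaleM_mul c.he₁ c.he₂, scaleM_scaleM,
      mul_assoc, mul_comm b.e₁, mul_comm b.e₂]

lemma GPoint.one_mul' (a : GPoint A) : 1 * a = a := by
  apply GPoint.ext
  · rw [mul_e₁, one_e₁, one_mul]
  · rw [mul_e₂, one_e₂, one_mul]
  · rw [mul_g, one_g, scaleM_one, one_mul]

lemma GPoint.inv_mul' (a : GPoint A) : a⁻¹ * a = 1 := by
  apply GPoint.ext
  · rw [mul_e₁, inv_e₁, one_e₁, ← sq, a.he₁]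
  · rw [mul_e₂, inv_e₂, one_e₂, ← sq, a.he₂]
  · rw [mul_g, inv_g, one_g, scaleM_scaleM, ← sq, ← sq, a.he₁, a.he₂, one_scaleM, mul_comm,
      mul_cj_one a.hg]

lemma act_unit {c e : A} (hc : IsUnit c) (he : e ^ 2 = 1) : IsUnit (c * e) :=
  hc.mul (IsUnit.of_mul_eq_one _ (by rw [← sq, he]))

lemma act_nrm {e₁ e₂ : A} (he₁ : e₁ ^ 2 = 1) (he₂ : e₂ ^ 2 = 1) {u g : MM A} (hu : IsUnit (nrm u))
    (hg : nrm g = 1) : IsUnit (nrm (scaleM e₁ e₂ u * g)) := by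
  rw [nrm_mul, hg, mul_one, nrm_scaleM he₁ he₂]
  obtain ⟨v, hv⟩ := hu.exists_right_inv
  have h1 : scale e₁ e₂ (nrm u) * scale e₁ e₂ v = 1 := by
    rw [← scale_mul he₁ he₂, hv, scale_one]
  exact IsUnit.of_mul_eq_one _ h1

lemma map_sq_one (f : A →+* B) {e : A} (he : e ^ 2 = 1) : f e ^ 2 = 1 := by
  rw [← map_pow, he, map_one]

lemma map_nrm_one (f : A →+* B) {g : MM A} (hg : nrm g = 1) : nrm (mapM f g) = 1 := by
  rw [nrm_mapM, hg, mapL_one]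

lemma map_nrm_unit (f : A →+* B) {u : MM A} (hu : IsUnit (nrm u)) : IsUnit (nrm (mapM f u)) := by
  rw [nrm_mapM]
  exact isUnit_mapL f hu

end Pool.Agent.W620.BM
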