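import Pool.Agent.W620.BM.Def2

open QuadraticAlgebra

namespace Pool.Agent.W620.BM

variable {A : Type*} [CommRing A]

/-- The homomorphism `A[s₁, s₂] → A` with `s₁ ↦ a`, `s₂ ↦ b`, for `a² = b² = 1`. -/
def evalL (a b : A) (t : LL A) : A := t.re.re + a * t.re.im + b * t.im.re + a * b * t.im.im

/-- The four sign vectors: the values of `s₁`. -/
def sgn₁ : Fin 4 → A := ![1, -1, 1, -1]

/-- The four sign vectors: the values of `s₂`. -/
def sgn₂ : Fin 4 → A := ![1, 1, -1, -1]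

lemma evalL_add (a b : A) (t t' : LL A) : evalL a b (t + t') = evalL a b t + evalL a b t' := by
  simp only [evalL, re_add, im_add]; ring

lemma evalL_neg (a b : A) (t : LL A) : evalL a b (-t) = -evalL a b t := by
  simp only [evalL, re_neg, im_neg]; ring

lemma evalL_mul {a b : A} (ha : a ^ 2 = 1) (hb : b ^ 2 = 1) (t t' : LL A) :
    evalL a b (t * t') = evalL a b t * evalL a b t' := by
  simp only [evalL, re_mul, im_mul, re_add, im_add, re_one, im_one, re_zero, im_zero]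
  linear_combination (-(t.re.im * t'.re.im + b * t.re.im * t'.im.im + b * t.im.im * t'.re.im +
      b ^ 2 * t.im.im * t'.im.im)) * ha + (-(t.im.re * t'.im.re + a * t.im.re * t'.im.im +
      a * t.im.im * t'.im.re + t.im.im * t'.im.im)) * hb

lemma evalL_one (a b : A) : evalL a b (1 : LL A) = 1 := by
  simp only [evalL, re_one, im_one, re_zero, im_zero]; ring

lemma evalL_sq {a b : A} (ha : a ^ 2 = 1) (hb : b ^ 2 = 1) (t : LL A) :
    evalL a b (t ^ 2) = evalL a b t ^ 2 := by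
  rw [sq, sq, evalL_mul ha hb]

lemma evalL_nrm {a b : A} (ha : a ^ 2 = 1) (hb : b ^ 2 = 1) (u : MM A) :
    evalL a b (nrm u) = evalL a b u.re ^ 2 + evalL a b u.im ^ 2 := by
  rw [nrm, evalL_add, evalL_sq ha hb, evalL_sq ha hb]

lemma sgn₁_sq (i : Fin 4) : (sgn₁ i : A) ^ 2 = 1 := by
  fin_cases i <;> simp [sgn₁]

lemma sgn₂_sq (i : Fin 4) : (sgn₂ i : A) ^ 2 = 1 := by
  fin_cases i <;> simp [sgn₂]

lemma evalL_un {q : A} (hq : 4 * q = 1) (f : Fin 4 → A) (i : Fin 4) :
    evalL (sgn₁ i) (sgn₂ i) (un q f) = f i := by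
  fin_cases i <;> simp only [evalL, un, sgn₁, sgn₂, Fin.zero_eta, Fin.mk_one, Fin.reduceFinMk,
    Matrix.cons_val]
  · linear_combination f 0 * hq
  · linear_combination f 1 * hq
  · linear_combination f 2 * hq
  · linear_combination f 3 * hq

lemma un_evalL {q : A} (hq : 4 * q = 1) (t : LL A) :
    un q (fun i => evalL (sgn₁ i) (sgn₂ i) t) = t := by
  ext <;> simp only [evalL, un, sgn₁, sgn₂, Matrix.cons_val]
  · linear_combination t.re.re * hq
  · linear_combination t.re.im * hq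
  · linear_combination t.im.re * hq
  · linear_combination t.im.im * hq

lemma evalL_ext {q : A} (hq : 4 * q = 1) {t t' : LL A}
    (h : ∀ i : Fin 4, evalL (sgn₁ i) (sgn₂ i) t = evalL (sgn₁ i) (sgn₂ i) t') : t = t' := by
  rw [← un_evalL hq t, ← un_evalL hq t']
  congr 1
  funext i
  exact h i

lemma exists_quarter [Algebra ℚ A] : ∃ q : A, 4 * q = 1 := by
  refine ⟨algebraMap ℚ A (1 / 4), ?_⟩
  have h1 : (4 : A) = algebraMap ℚ A 4 := (map_ofNat (algebraMap ℚ A) 4).symm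
  rw [h1, ← map_mul]
  norm_num

lemma un_mul {q : A} (hq : 4 * q = 1) (f g : Fin 4 → A) :
    un q f * un q g = un q (fun i => f i * g i) := by
  refine evalL_ext hq fun i => ?_
  rw [evalL_mul (sgn₁_sq i) (sgn₂_sq i), evalL_un hq, evalL_un hq, evalL_un hq]

lemma un_sub {q : A} (f g : Fin 4 → A) : un q f + -un q g = un q (fun i => f i - g i) := by
  ext <;> simp only [un, re_add, im_add, re_neg, im_neg] <;> ring

lemma un_add {q : A} (f g : Fin 4 → A) : un q f + un q g = un q (fun i => f i + g i) := by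
  ext <;> simp only [un, re_add, im_add] <;> ring

lemma quarter [Algebra ℚ A] : 4 * algebraMap ℚ A (1 / 4) = 1 := by
  have h1 : (4 : A) = algebraMap ℚ A 4 := (map_ofNat (algebraMap ℚ A) 4).symm
  rw [h1, ← map_mul]
  norm_num

lemma so_spec (M : SO2 A) : M.1 0 0 = M.1 1 1 ∧ M.1 0 1 = -M.1 1 0 ∧
    M.1 0 0 ^ 2 + M.1 0 1 ^ 2 = 1 := Matrix.mem_specialOrthogonalGroup_fin_two_iff.1 M.2

lemma so_mul₁ (M N : SO2 A) : (M * N).1 0 0 = M.1 0 0 * N.1 0 0 - M.1 0 1 * N.1 0 1 := by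
  have h : (M * N).1 = M.1 * N.1 := rfl
  rw [h, Matrix.mul_apply, Fin.sum_univ_two, (so_spec N).2.1]
  ring

lemma so_mul₂ (M N : SO2 A) : (M * N).1 0 1 = M.1 0 0 * N.1 0 1 + M.1 0 1 * N.1 0 0 := by
  have h : (M * N).1 = M.1 * N.1 := rfl
  rw [h, Matrix.mul_apply, Fin.sum_univ_two, (so_spec N).1]

/-- the element of `A[s₁, s₂, i]` with given values in `SO₂` -/
lemma fromSO_norm [Algebra ℚ A] (M : Fin 4 → SO2 A) :
    nrm (⟨un (algebraMap ℚ A (1 / 4)) (fun i => (M i).1 0 0),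
      un (algebraMap ℚ A (1 / 4)) (fun i => (M i).1 0 1)⟩ : MM A) = 1 := by
  refine evalL_ext quarter fun i => ?_
  rw [evalL_nrm (sgn₁_sq i) (sgn₂_sq i), evalL_one, evalL_un quarter, evalL_un quarter,
    (so_spec (M i)).2.2]

lemma un_const {q : A} (hq : 4 * q = 1) : un q (fun _ => 1) = 1 := by
  refine evalL_ext hq fun i => ?_
  rw [evalL_un hq, evalL_one]

lemma un_zero {q : A} : un q (fun _ => 0) = 0 := by
  ext <;> simp [un]

lemma fromSO_one [Algebra ℚ A] :
    (⟨un (algebraMap ℚ A (1 / 4)) (fun i => ((1 : Fin 4 → SO2 A) i).1 0 0),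
      un (algebraMap ℚ A (1 / 4)) (fun i => ((1 : Fin 4 → SO2 A) i).1 0 1)⟩ : MM A) = 1 := by
  apply QuadraticAlgebra.ext
  · exact un_const quarter
  · exact un_zero

lemma fromSO_mul [Algebra ℚ A] (M N : Fin 4 → SO2 A) :
    (⟨un (algebraMap ℚ A (1 / 4)) (fun i => ((M * N) i).1 0 0),
      un (algebraMap ℚ A (1 / 4)) (fun i => ((M * N) i).1 0 1)⟩ : MM A) =
    scaleM 1 1 ⟨un (algebraMap ℚ A (1 / 4)) (fun i => (M i).1 0 0),
      un (algebraMap ℚ A (1 / 4)) (fun i => (M i).1 0 1)⟩ *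
    ⟨un (algebraMap ℚ A (1 / 4)) (fun i => (N i).1 0 0),
      un (algebraMap ℚ A (1 / 4)) (fun i => (N i).1 0 1)⟩ := by
  rw [one_scaleM]
  apply QuadraticAlgebra.ext
  · simp only [QuadraticAlgebra.re_mul, neg_mul, one_mul]
    rw [un_mul quarter, un_mul quarter, un_sub]
    congr 1
    funext i
    exact so_mul₁ (M i) (N i)
  · simp only [QuadraticAlgebra.im_mul, zero_mul, add_zero]
    rw [un_mul quarter, un_mul quarter, un_add]
    congr 1
    funext i
    exact so_mul₂ (M i) (N i)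

end Pool.Agent.W620.BM
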