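import Pool.Agent.W620.BM.Cover
import Pool.Agent.W620.BM.Desc

/-!
# The adelic point lies in the Brauer-Manin set
-/

open scoped TensorProduct Topology
open MvPolynomial

namespace Pool.Agent.W620.BM

/-- the rational point `(1, 1, 1, 0, 0, 0)` -/
noncomputable def P₀ : CoordRing →+* ℚ := mkPt ![1, 1, 1, 0, 0, 0] (disc_one 1 (one_pow 2))

lemma coord_P₀ : coord P₀ = ![1, 1, 1, 0, 0, 0] := coord_mkPt _ _

lemma coord_comp {A B : Type*} [CommRing A] [CommRing B] (f : A →+* B) (P : CoordRing →+* A)
    (i : Fin 6) : coord (f.comp P) i = f (coord P i) := rfl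

/-- the adelic point -/
noncomputable def adPt : AdelicPoint where
  fin := fun p _ => (Rat.castHom ℚ_[p]).comp P₀
  inf := rp (-1) (by norm_num)
  integral := by
    intro r
    refine Set.Finite.subset (Nat.divisors (P₀ r).den).finite_toSet ?_
    rintro p ⟨hp, h⟩
    rw [Finset.mem_coe, Nat.mem_divisors]
    refine ⟨?_, (P₀ r).den_ne_zero⟩
    by_contra hcon
    exact h (padicNorm_le hcon)
where
  padicNorm_le {p : ℕ} [Fact p.Prime] {q : ℚ} (h : ¬ p ∣ q.den) : ‖(Rat.castHom ℚ_[p]) q‖ ≤ 1 :=
    Padic.norm_rat_le_one h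

section basechange

variable (R S K B : Type) [CommRing R] [CommRing S] [CommRing K] [Algebra R S] [Algebra S K]
  [Algebra R K] [IsScalarTower R S K] [Ring B] [Algebra R B]

/-- base change of algebras in two steps -/
noncomputable def cbc : K ⊗[S] (S ⊗[R] B) ≃ₐ[K] K ⊗[R] B :=
  Algebra.TensorProduct.algEquivOfLinearEquivTensorProduct
    (TensorProduct.AlgebraTensorModule.cancelBaseChange R S K K B)
    (by
      intro a₁ a₂ d₁ d₂
      induction d₁ with
      | zero => simp
      | add x y hx hy =>
        rw [add_mul, TensorProduct.tmul_add, map_add, hx, hy, TensorProduct.tmul_add, map_add,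
          add_mul]
      | tmul s b =>
        induction d₂ with
        | zero => simp
        | add x y hx hy =>
          rw [mul_add, TensorProduct.tmul_add, map_add, hx, hy, TensorProduct.tmul_add, map_add,
            mul_add]
        | tmul s' b' =>
          rw [Algebra.TensorProduct.tmul_mul_tmul,
            TensorProduct.AlgebraTensorModule.cancelBaseChange_tmul,
            TensorProduct.AlgebraTensorModule.cancelBaseChange_tmul,
            TensorProduct.AlgebraTensorModule.cancelBaseChange_tmul,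
            Algebra.TensorProduct.tmul_mul_tmul, mul_smul_mul_comm])
    (by
      rw [Algebra.TensorProduct.one_def, Algebra.TensorProduct.one_def,
        TensorProduct.AlgebraTensorModule.cancelBaseChange_tmul, one_smul])

end basechange

section

/-- isomorphic algebras are Brauer equivalent -/
lemma BrauerEq.of_equiv {K A B : Type} [Field K] [Ring A] [Ring B] [Algebra K A] [Algebra K B]
    (e : A ≃ₐ[K] B) : BrauerEq K A B :=
  ⟨1, 1, one_ne_zero, one_ne_zero, ⟨e.mapMatrix⟩⟩

variable (B : Type) [Ring B] [Algebra CoordRing B]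

/-- base change of the fibre at the rational point -/
lemma base_change (K : Type) [Field K] [Algebra ℚ K] (P : CoordRing →+* K)
    (hP : P = (algebraMap ℚ K).comp P₀) :
    letI := P₀.toAlgebra
    letI := P.toAlgebra
    Nonempty (K ⊗[ℚ] (ℚ ⊗[CoordRing] B) ≃ₐ[K] K ⊗[CoordRing] B) := by
  let _ := P₀.toAlgebra
  let _ := P.toAlgebra
  have : IsScalarTower CoordRing ℚ K := IsScalarTower.of_algebraMap_eq' hP
  exact ⟨cbc CoordRing ℚ K B⟩

variable [IsAzumaya CoordRing B]

theorem brauer_part : ∃ (D : Type) (_ : Ring D) (_ : Algebra ℚ D),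
    (Algebra.IsCentral ℚ D ∧ IsSimpleRing D ∧ Module.Finite ℚ D) ∧
    (∀ (p : ℕ) [Fact p.Prime], AgreesAt ℚ_[p] (adPt.fin p) B D) ∧ AgreesAt ℝ adPt.inf B D := by
  let _ := P₀.toAlgebra
  refine ⟨ℚ ⊗[CoordRing] B, inferInstance, inferInstance, a_csa CoordRing B ℚ, ?_, ?_⟩
  · intro p _
    have hP : adPt.fin p = (algebraMap ℚ ℚ_[p]).comp P₀ := by
      have h1 : algebraMap ℚ ℚ_[p] = Rat.castHom ℚ_[p] := Subsingleton.elim _ _
      rw [h1]
      rfl
    obtain ⟨e⟩ := base_change B ℚ_[p] (adPt.fin p) hP
    exact BrauerEq.of_equiv e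
  · have hP : rp 1 (one_pow 2) = (algebraMap ℚ ℝ).comp P₀ := by
      apply point_ext
      funext i
      rw [coord_comp, coord_rp, coord_P₀]
      fin_cases i <;> simp
    obtain ⟨n, h, h1, h2⟩ := real_both B
    obtain ⟨e⟩ := base_change B ℝ (rp 1 (one_pow 2)) hP
    obtain ⟨e1⟩ := h1
    obtain ⟨e2⟩ := h2
    exact BrauerEq.of_equiv ((e.trans e1).trans e2.symm)

end

theorem main : InBrauerManinSet adPt ∧ ¬ InDescentSet adPt := by
  refine ⟨?_, not_descent adPt ?_ ?_⟩
  · intro B _ _ _
    exact brauer_part B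
  · intro p _
    funext i
    change coord ((Rat.castHom ℚ_[p]).comp P₀) i = _
    rw [coord_comp, coord_P₀]
    fin_cases i <;> simp
  · exact coord_rp (-1) (by norm_num)

end Pool.Agent.W620.BM

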