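import Pool.Agent.W620.BM.Stm

open scoped TensorProduct Topology
open Matrix

namespace Pool.Agent.W620.BM

variable {R B : Type} [CommRing R] [Ring B] [Algebra R B]

/-- entrywise complex conjugation -/
noncomputable abbrev bar {n : ℕ} (m : Mat n) : Mat n := m.map (starRingEnd ℂ)

lemma bar_mul {n : ℕ} (a b : Mat n) : bar (a * b) = bar a * bar b := Matrix.map_mul

lemma bar_bar {n : ℕ} (a : Mat n) : bar (bar a) = a := by
  ext i j
  simp [bar]

lemma bar_one {n : ℕ} : bar (1 : Mat n) = 1 := by
  simp [bar]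

lemma bar_smul {n : ℕ} (c : ℂ) (a : Mat n) : bar (c • a) = (starRingEnd ℂ c) • bar a := by
  ext i j
  simp [bar]

lemma bar_det {n : ℕ} (a : Mat n) : (bar a).det = starRingEnd ℂ a.det := by
  have := (RingHom.map_det (starRingEnd ℂ) a)
  rw [this]
  rfl

lemma conjRep_apply {n : ℕ} (ρ : B →+* Mat n) (b : B) : conjRep ρ b = bar (ρ b) := rfl

/-- the conjugate representation lives over the conjugate point -/
lemma IsRep.conj {n : ℕ} {x : R →+* ℂ} {ρ : B →+* Mat n} (h : IsRep x ρ) :
    IsRep ((starRingEnd ℂ).comp x) (conjRep ρ) := by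
  constructor
  · intro r
    rw [conjRep_apply, h.scalar, Algebra.algebraMap_eq_smul_one, bar_smul, bar_one,
      Algebra.algebraMap_eq_smul_one]
    rfl
  · rw [eq_top_iff]
    intro m _
    have h1 : bar m ∈ Submodule.span ℂ (Set.range ρ) := by rw [h.span]; trivial
    have h2 : ∀ y ∈ Submodule.span ℂ (Set.range ρ), bar y ∈
        Submodule.span ℂ (Set.range (conjRep ρ)) := by
      intro y hy
      induction hy using Submodule.span_induction with
      | mem y hy =>
        obtain ⟨b, rfl⟩ := hy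
        exact Submodule.subset_span ⟨b, rfl⟩
      | zero =>
        have : bar (0 : Mat n) = 0 := by ext; simp [bar]
        rw [this]
        exact zero_mem _
      | add y z _ _ hy hz =>
        have : bar (y + z) = bar y + bar z := by ext; simp [bar]
        rw [this]
        exact add_mem hy hz
      | smul c y _ hy =>
        rw [bar_smul]
        exact Submodule.smul_mem _ _ hy
    have h3 := h2 _ h1
    rwa [bar_bar] at h3

/-- the commutant of a spanning representation consists of scalars -/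
lemma IsRep.comm {n : ℕ} {x : R →+* ℂ} {ρ : B →+* Mat n} (h : IsRep x ρ) (m : Mat n)
    (hm : ∀ b, ρ b * m = m * ρ b) : ∃ c : ℂ, m = c • (1 : Mat n) := by
  have h1 : ∀ y ∈ Submodule.span ℂ (Set.range ρ), y * m = m * y := by
    intro y hy
    induction hy using Submodule.span_induction with
    | mem y hy =>
      obtain ⟨b, rfl⟩ := hy
      exact hm b
    | zero => rw [zero_mul, mul_zero]
    | add y z _ _ hy hz => rw [add_mul, mul_add, hy, hz]
    | smul c y _ hy => rw [smul_mul_assoc, hy, mul_smul_comm]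
  have h2 : m ∈ Set.range (Matrix.scalar (Fin n) (α := ℂ)) := by
    rw [Matrix.mem_range_scalar_iff_commute_single']
    intro i j
    exact h1 _ (by rw [h.span]; trivial)
  obtain ⟨c, rfl⟩ := h2
  exact ⟨c, by rw [Matrix.scalar_apply, ← Matrix.smul_one_eq_diagonal]⟩

lemma IsRep.inter {n : ℕ} {x : R →+* ℂ} {ρ : B →+* Mat n} (h : IsRep x ρ)
    {σ : B → Mat n} {a c : Mat n} (hc : c.det = 1)
    (h1 : ∀ b, σ b * a = a * ρ b) (h2 : ∀ b, σ b * c = c * ρ b) :
    adjugate c * a = (adjugate c * a).trace • ((n : ℂ)⁻¹ • (1 : Mat n)) ∨ n = 0 := by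
  by_cases hn : n = 0
  · exact Or.inr hn
  left
  have hcc : adjugate c * c = 1 := by rw [adjugate_mul, hc, one_smul]
  have hcc' : c * adjugate c = 1 := by rw [mul_adjugate, hc, one_smul]
  obtain ⟨z, hz⟩ := h.comm (adjugate c * a) (fun b => by
    have h3 : ρ b * adjugate c = adjugate c * σ b := by
      calc ρ b * adjugate c = (adjugate c * c) * ρ b * adjugate c := by rw [hcc, one_mul]
        _ = adjugate c * (c * ρ b) * adjugate c := by simp only [mul_assoc]
        _ = adjugate c * σ b * (c * adjugate c) := by rw [← h2]; simp only [mul_assoc]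
        _ = adjugate c * σ b := by rw [hcc', mul_one]
    rw [← mul_assoc, h3, mul_assoc, h1, mul_assoc])
  rw [hz, trace_smul, trace_one, Fintype.card_fin, smul_eq_mul, smul_smul,
    mul_assoc, mul_inv_cancel₀ (by exact_mod_cast hn), mul_one]

/-- a continuous function on `ℝ^d` with values in the roots of unity is constant -/
lemma const_root {d n : ℕ} (hn : 0 < n) (c : (Fin d → ℝ) → ℂ) (hc : Continuous c)
    (h : ∀ θ, c θ ^ n = 1) (θ θ' : Fin d → ℝ) : c θ = c θ' := by
  have hfin : {z : ℂ | z ^ n = 1}.Finite := by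
    have h1 : {z : ℂ | z ^ n = 1} ⊆ {z : ℂ | (Polynomial.X ^ n - Polynomial.C (1 : ℂ)).IsRoot z} := by
      intro z hz
      have hz' : z ^ n = 1 := hz
      simp [Polynomial.IsRoot, hz']
    exact (Polynomial.finite_setOfPred_isRoot (Polynomial.X_pow_sub_C_ne_zero hn 1)).subset h1
  exact isPreconnected_univ.constant_of_mapsTo (S := Set.univ) (T := {z : ℂ | z ^ n = 1})
    hfin.isDiscrete hc.continuousOn (fun θ _ => h θ) (Set.mem_univ _) (Set.mem_univ _)

/-- two continuous families of intertwiners of determinant one differ by a constant -/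
lemma scalar_const {d n : ℕ} (hn : 0 < n) {x : (Fin d → ℝ) → R →+* ℂ}
    {ρ : (Fin d → ℝ) → B →+* Mat n} (hρ : IsFam x Set.univ ρ) (σ : (Fin d → ℝ) → B → Mat n)
    (a c : (Fin d → ℝ) → Mat n) (ha : Continuous a) (hc : Continuous c)
    (had : ∀ θ, (a θ).det = 1) (hcd : ∀ θ, (c θ).det = 1)
    (h1 : ∀ θ b, σ θ b * a θ = a θ * ρ θ b) (h2 : ∀ θ b, σ θ b * c θ = c θ * ρ θ b) :
    ∃ z : ℂ, z ^ n = 1 ∧ ∀ θ, a θ = z • c θ := by
  set z : (Fin d → ℝ) → ℂ := fun θ => (n : ℂ)⁻¹ * (adjugate (c θ) * a θ).trace with hz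
  have hzc : Continuous z := by
    refine continuous_const.mul ?_
    exact (hc.matrix_adjugate.mul ha).matrix_trace
  have hzeq : ∀ θ, a θ = z θ • c θ := by
    intro θ
    have h3 := (hρ.rep θ (Set.mem_univ _)).inter (hcd θ) (h1 θ) (h2 θ)
    rcases h3 with h3 | h3
    · have h4 : c θ * (adjugate (c θ) * a θ) = a θ := by
        rw [← mul_assoc, mul_adjugate, hcd, one_smul, one_mul]
      rw [← h4, h3, smul_smul, mul_smul_comm, mul_one, hz]
      dsimp only
      rw [mul_comm, h3]
    · omega
  have hzn : ∀ θ, z θ ^ n = 1 := by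
    intro θ
    have h3 := congrArg det (hzeq θ)
    rw [had, det_smul, hcd, mul_one, Fintype.card_fin] at h3
    exact h3.symm
  refine ⟨z 0, hzn 0, fun θ => ?_⟩
  rw [hzeq θ, const_root hn z hzc hzn θ 0]

end Pool.Agent.W620.BM
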