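import Mathlib

/-!
# Brauer-Manin set versus descent (MP_be3542_nt): definitions and the statements to be proved
-/

open scoped TensorProduct Topology
open Matrix

namespace Pool.Agent.W620.BM

/-- `n × n` complex matrices -/
abbrev Mat (n : ℕ) : Type := Matrix (Fin n) (Fin n) ℂ

section defs

variable {R B : Type} [CommRing R] [Ring B] [Algebra R B]

/-- `ρ` is a spanning representation of the `R`-algebra `B` over the complex point `x` of `R` -/
structure IsRep {n : ℕ} (x : R →+* ℂ) (ρ : B →+* Mat n) : Prop where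
  scalar : ∀ r : R, ρ (algebraMap R B r) = algebraMap ℂ (Mat n) (x r)
  span : Submodule.span ℂ (Set.range ρ) = ⊤

/-- the complex conjugate representation -/
noncomputable def conjRep {n : ℕ} (ρ : B →+* Mat n) : B →+* Mat n :=
  (starRingEnd ℂ).mapMatrix.comp ρ

/-- a continuous family of spanning representations over `x θ`, for `θ` in `Q` -/
structure IsFam {T : Type} [TopologicalSpace T] {n : ℕ} (x : T → R →+* ℂ) (Q : Set T)
    (ρ : T → B →+* Mat n) : Prop where
  rep : ∀ θ ∈ Q, IsRep (x θ) (ρ θ)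
  cont : ∀ b, ContinuousOn (fun θ => ρ θ b) Q

/-- `s = 1` or `s = -1`: the type of the fibre of `B` at the real point `x` -/
def HasType (B : Type) [Ring B] [Algebra R B] (x : R →+* ℂ) (s : ℂ) : Prop :=
  ∃ (n : ℕ) (_ : 0 < n) (ρ : B →+* Mat n) (h : Mat n), IsRep x ρ ∧ h.det = 1 ∧
    (∀ b, ρ b * h = h * conjRep ρ b) ∧ h * h.map (starRingEnd ℂ) = algebraMap ℂ (Mat n) s

/-- `2 π` times the `j`-th unit vector -/
noncomputable def per {d : ℕ} (j : Fin d) : Fin d → ℝ := Pi.single j (2 * Real.pi)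

end defs

/-! ### Algebra -/

/-- BM-RET: the base ring is a direct summand of an Azumaya algebra -/
def S_ret : Prop := ∀ (R B : Type) [CommRing R] [Ring B] [Algebra R B] [IsAzumaya R B],
  ∃ f : B →ₗ[R] R, f 1 = 1

/-- BM-SEP: separability idempotent -/
def S_sep : Prop := ∀ (R B : Type) [CommRing R] [Ring B] [Algebra R B] [IsAzumaya R B],
  ∃ (m : ℕ) (u v : Fin m → B), ∑ k, u k * v k = 1 ∧
    ∀ c : B, ∑ k, (c * u k) ⊗ₜ[R] (v k) = ∑ k, (u k) ⊗ₜ[R] (v k * c)

/-- BM-CSA: fibres of Azumaya algebras at points with values in fields are central simple -/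
def S_csa : Prop := ∀ (R B K : Type) [CommRing R] [Ring B] [Algebra R B] [IsAzumaya R B]
  [Field K] [Algebra R K],
  Algebra.IsCentral K (K ⊗[R] B) ∧ IsSimpleRing (K ⊗[R] B) ∧ Module.Finite K (K ⊗[R] B)

/-- BM-REP: existence of spanning representations -/
def S_rep : Prop := ∀ (R B : Type) [CommRing R] [Ring B] [Algebra R B] [IsAzumaya R B]
  (x : R →+* ℂ), ∃ (n : ℕ) (_ : 0 < n) (ρ : B →+* Mat n), IsRep x ρ

/-- BM-DEG: the degree of a spanning representation is determined by the point -/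
def S_deg : Prop := ∀ (R B : Type) [CommRing R] [Ring B] [Algebra R B] [IsAzumaya R B]
  (x : R →+* ℂ) (n n' : ℕ) (ρ : B →+* Mat n) (ρ' : B →+* Mat n'), 0 < n → 0 < n' →
  IsRep x ρ → IsRep x ρ' → n = n'

/-- BM-UNI: uniqueness of spanning representations -/
def S_uni : Prop := ∀ (R B : Type) [CommRing R] [Ring B] [Algebra R B] [IsAzumaya R B]
  (x : R →+* ℂ) (n : ℕ) (ρ ρ' : B →+* Mat n), 0 < n → IsRep x ρ → IsRep x ρ' →
  ∃ g : Mat n, g.det = 1 ∧ ∀ b, ρ' b * g = g * ρ b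

/-- the real form of the matrix algebra defined by `h` -/
noncomputable def realForm {n : ℕ} (h : Mat n) : Subalgebra ℝ (Mat n) where
  carrier := {m | m * h = h * m.map (starRingEnd ℂ)}
  mul_mem' := by
    intro a b ha hb
    simp only [Set.mem_ofPred_eq] at *
    rw [mul_assoc, hb, ← mul_assoc, ha, mul_assoc, Matrix.map_mul]
  one_mem' := by simp
  add_mem' := by
    intro a b ha hb
    simp only [Set.mem_ofPred_eq] at *
    rw [add_mul, ha, hb, ← mul_add]
    congr 1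
    ext i j
    simp
  zero_mem' := by simp
  algebraMap_mem' := by
    intro r
    simp only [Set.mem_ofPred_eq]
    rw [Algebra.algebraMap_eq_smul_one, smul_mul_assoc, one_mul]
    have : ((r • (1 : Mat n)).map (starRingEnd ℂ)) = r • (1 : Mat n) := by
      ext i j
      rw [Matrix.map_apply, Matrix.smul_apply, Matrix.one_apply]
      split_ifs <;> simp
    rw [this, mul_smul_comm, mul_one]

/-- BM-FIB: the fibre at a real point is a real form of the matrix algebra -/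
def S_fib : Prop := ∀ (R B : Type) [CommRing R] [Ring B] [Algebra R B] [IsAzumaya R B]
  [Algebra R ℝ] (n : ℕ) (_ : 0 < n) (ρ : B →+* Mat n) (h : Mat n),
  IsRep (Complex.ofRealHom.comp (algebraMap R ℝ)) ρ → h.det = 1 →
  (∀ b, ρ b * h = h * conjRep ρ b) → Nonempty ((ℝ ⊗[R] B) ≃ₐ[ℝ] realForm h)

/-- BM-H90: Hilbert 90 for real and quaternionic structures -/
def S_h90 : Prop := ∀ (n : ℕ) (h h' : Mat n) (s : ℂ), s ≠ 0 → h.det ≠ 0 → h'.det ≠ 0 →
  h * h.map (starRingEnd ℂ) = algebraMap ℂ (Mat n) s →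
  h' * h'.map (starRingEnd ℂ) = algebraMap ℂ (Mat n) s →
  ∃ k : Mat n, k.det ≠ 0 ∧ h' * k.map (starRingEnd ℂ) = k * h

/-! ### Topology -/

/-- BM-BOX: induction on boxes -/
def S_box : Prop := ∀ (d : ℕ) (P : (Fin d → ℝ) → (Fin d → ℝ) → Prop),
  (∀ θ : Fin d → ℝ, ∃ ε > 0, ∀ a b, a ≤ b → (∀ i, |a i - θ i| < ε ∧ |b i - θ i| < ε) → P a b) →
  (∀ a b (i : Fin d) (c : ℝ), a ≤ b → a i ≤ c → c ≤ b i →
    P a (Function.update b i c) → P (Function.update a i c) b → P a b) →
  ∀ a b, a ≤ b → P a b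

/-- BM-IDEM: almost idempotents can be corrected continuously -/
def S_idem : Prop := ∀ (N : ℕ) (p : Mat N), p * p = p →
  ∃ U ∈ 𝓝 p, ∃ E : Mat N → Mat N, ContinuousOn E U ∧ E p = p ∧
    ∀ a ∈ U, E a * E a = E a ∧
      ∀ V : Submodule ℂ (Mat N), (∀ c ∈ V, ∀ c' ∈ V, c * c' ∈ V) → a ∈ V → E a ∈ V

/-- BM-LOC: local existence of families -/
def S_loc : Prop := ∀ (R B : Type) [CommRing R] [Ring B] [Algebra R B] [IsAzumaya R B]
  (T : Type) [TopologicalSpace T] (x : T → R →+* ℂ), (∀ r, Continuous fun θ => x θ r) →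
  ∀ (θ₀ : T) (n : ℕ) (_ : 0 < n) (ρ₀ : B →+* Mat n), IsRep (x θ₀) ρ₀ →
  ∃ U ∈ 𝓝 θ₀, ∃ ρ : T → B →+* Mat n, IsFam x U ρ

/-- BM-TRIV: global existence of families over `ℝ^d` -/
def S_triv : Prop := ∀ (R B : Type) [CommRing R] [Ring B] [Algebra R B] [IsAzumaya R B]
  (d : ℕ) (x : (Fin d → ℝ) → R →+* ℂ), (∀ r, Continuous fun θ => x θ r) →
  ∃ (n : ℕ) (_ : 0 < n) (ρ : (Fin d → ℝ) → B →+* Mat n), IsFam x Set.univ ρ

/-- BM-LIFT: two families over the same points are conjugate by a continuous family of matrices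
of determinant one -/
def S_lift : Prop := ∀ (R B : Type) [CommRing R] [Ring B] [Algebra R B] [IsAzumaya R B]
  (d : ℕ) (x : (Fin d → ℝ) → R →+* ℂ) (n : ℕ) (_ : 0 < n) (ρ ρ' : (Fin d → ℝ) → B →+* Mat n),
  IsFam x Set.univ ρ → IsFam x Set.univ ρ' →
  ∃ g : (Fin d → ℝ) → Mat n, Continuous g ∧ (∀ θ, (g θ).det = 1) ∧
    ∀ θ b, ρ' θ b * g θ = g θ * ρ θ b

/-! ### Arithmetic and combinatorics -/

/-- BM-SQ2: a negative rational number is not locally everywhere the inverse of a sum of two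
squares -/
def S_twosq : Prop := ∀ a : ℚ, a < 0 →
  ∃ (p : ℕ) (_ : Fact p.Prime), ∀ u v : ℚ_[p], (a : ℚ_[p]) * (u ^ 2 + v ^ 2) ≠ 1

/-- BM-GSQ: a rational number which is a square locally everywhere is a square -/
def S_gsq : Prop := ∀ a : ℚ, 0 < a →
  (∀ (p : ℕ) (_ : Fact p.Prime), ∃ c : ℚ_[p], c ^ 2 * (a : ℚ_[p]) = 1) → ∃ g : ℚ, g ^ 2 = a

/-- BM-COMB: a function of degree at most two on `𝔽₂⁶`, invariant under the two involutions -/
def S_comb : Prop := ∀ E : (Fin 6 → Bool) → ℂ, (∀ v, E v ^ 2 = 1) →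
  (∀ (v : Fin 6 → Bool) (i j k : Fin 6), i ≠ j → i ≠ k → j ≠ k →
    ∏ ε : Fin 3 → Bool, E (Function.update (Function.update (Function.update v i (ε 0)) j (ε 1))
      k (ε 2)) = 1) →
  (∀ v, E ![!v 0, v 1, v 3, v 2, v 5, v 4] = E v) →
  (∀ v, E ![v 0, !v 1, v 4, v 5, v 2, v 3] = E v) →
  E ![false, false, true, true, true, true] = E ![false, false, false, false, false, false]

end Pool.Agent.W620.BM
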